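import Mathlib

/-!
# A two step Hall theorem
-/

set_option autoImplicit false

namespace Pool.Agent.Helper40.Pack

/-- **Two step Hall.** Every `z` gets a `g` in `zg z` and an `h` in `gh g`, the `g` different and
the `h` different. -/
theorem hall_two_step {Z G H : Type} [Fintype Z] [DecidableEq Z] [DecidableEq G] [DecidableEq H]
    (zg : Z → Finset G) (gh : G → Finset H)
    (hall : ∀ (S : Finset Z) (T : Finset G), T ⊆ S.biUnion zg →
      S.card ≤ T.card + ((S.biUnion zg \ T).biUnion gh).card) :
    ∃ (a : Z → G) (b : Z → H), Function.Injective a ∧ Function.Injective b ∧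
      ∀ z, a z ∈ zg z ∧ b z ∈ gh (a z) := by
  classical
  set GG : Finset G := Finset.univ.biUnion zg with hGG
  have hsub : ∀ z, ∀ g ∈ zg z, g ∈ GG := fun z g hg =>
    Finset.mem_biUnion.mpr ⟨z, Finset.mem_univ _, hg⟩
  -- the bipartite graph
  let N : Z ⊕ {g // g ∈ GG} → Finset (G ⊕ H) := Sum.elim
    (fun z => (zg z).map Function.Embedding.inl)
    (fun g => insert (Sum.inl g.1) ((gh g.1).map Function.Embedding.inr))
  have hN : ∀ s : Finset (Z ⊕ {g // g ∈ GG}), s.card ≤ (s.biUnion N).card := by
    intro s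
    set S : Finset Z := s.toLeft with hS
    set U : Finset {g // g ∈ GG} := s.toRight with hU
    set U' : Finset G := U.map (Function.Embedding.subtype _) with hU'
    have hcard : s.card = S.card + U'.card := by
      rw [hU', Finset.card_map, hS, hU, Finset.card_toLeft_add_card_toRight]
    set L : Finset G := S.biUnion zg with hL
    have h1 := hall S (L \ U') Finset.sdiff_subset
    rw [← hL] at h1
    have h2 : ((L ∪ U').map (Function.Embedding.inl : G ↪ G ⊕ H)).card +
        ((U'.biUnion gh).map (Function.Embedding.inr : H ↪ G ⊕ H)).card ≤ (s.biUnion N).card := by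
      rw [← Finset.card_union_of_disjoint]
      · apply Finset.card_le_card
        intro x hx
        rw [Finset.mem_union] at hx
        rcases hx with hx | hx
        · obtain ⟨g, hg, rfl⟩ := Finset.mem_map.mp hx
          rcases Finset.mem_union.mp hg with hg | hg
          · obtain ⟨z, hz, hzg⟩ := Finset.mem_biUnion.mp hg
            refine Finset.mem_biUnion.mpr ⟨Sum.inl z, ?_, ?_⟩
            · exact Finset.mem_toLeft.mp hz
            · exact Finset.mem_map.mpr ⟨g, hzg, rfl⟩
          · obtain ⟨g', hg', rfl⟩ := Finset.mem_map.mp hg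
            refine Finset.mem_biUnion.mpr ⟨Sum.inr g', ?_, ?_⟩
            · exact Finset.mem_toRight.mp hg'
            · exact Finset.mem_insert_self _ _
        · obtain ⟨h, hh, rfl⟩ := Finset.mem_map.mp hx
          obtain ⟨g, hg, hgh⟩ := Finset.mem_biUnion.mp hh
          obtain ⟨g', hg', rfl⟩ := Finset.mem_map.mp hg
          refine Finset.mem_biUnion.mpr ⟨Sum.inr g', ?_, ?_⟩
          · exact Finset.mem_toRight.mp hg'
          · exact Finset.mem_insert_of_mem (Finset.mem_map.mpr ⟨h, hgh, rfl⟩)
      · rw [Finset.disjoint_left]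
        intro x hx hx'
        obtain ⟨g, -, rfl⟩ := Finset.mem_map.mp hx
        obtain ⟨h, -, he⟩ := Finset.mem_map.mp hx'
        exact Sum.inr_ne_inl he
    rw [Finset.card_map, Finset.card_map] at h2
    have h3 : (L ∪ U').card = (L \ U').card + U'.card := by
      rw [← Finset.card_union_of_disjoint Finset.sdiff_disjoint, Finset.sdiff_union_self_eq_union]
    have h4 : ((L \ (L \ U')).biUnion gh).card ≤ (U'.biUnion gh).card := by
      apply Finset.card_le_card
      apply Finset.biUnion_subset_biUnion_of_subset_left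
      intro g hg
      rw [Finset.mem_sdiff, Finset.mem_sdiff] at hg
      by_contra hg'
      exact hg.2 ⟨hg.1, hg'⟩
    omega
  obtain ⟨f, hf, hfN⟩ := (Finset.all_card_le_biUnion_card_iff_exists_injective N).mp hN
  -- the line of z
  have ha : ∀ z, ∃ g, g ∈ zg z ∧ f (Sum.inl z) = Sum.inl g := by
    intro z
    obtain ⟨g, hg, he⟩ := Finset.mem_map.mp (hfN (Sum.inl z))
    exact ⟨g, hg, he.symm⟩
  choose a ha1 ha2 using ha
  have hb : ∀ z, ∃ h, h ∈ gh (a z) ∧ f (Sum.inr ⟨a z, hsub z _ (ha1 z)⟩) = Sum.inr h := by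
    intro z
    rcases Finset.mem_insert.mp (hfN (Sum.inr ⟨a z, hsub z _ (ha1 z)⟩)) with he | he
    · exfalso
      have := hf ((ha2 z).trans he.symm)
      exact Sum.inl_ne_inr this
    · obtain ⟨h, hh, he'⟩ := Finset.mem_map.mp he
      exact ⟨h, hh, he'.symm⟩
  choose b hb1 hb2 using hb
  have hainj : Function.Injective a := by
    intro z z' e
    have h1 : f (Sum.inl z) = f (Sum.inl z') := by rw [ha2, ha2, e]
    exact Sum.inl_injective (hf h1)
  refine ⟨a, b, hainj, ?_, fun z => ⟨ha1 z, hb1 z⟩⟩
  intro z z' e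
  have h1 : f (Sum.inr ⟨a z, hsub z _ (ha1 z)⟩) = f (Sum.inr ⟨a z', hsub z' _ (ha1 z')⟩) := by
    rw [hb2, hb2, e]
  have h2 := Sum.inr_injective (hf h1)
  exact hainj (Subtype.mk.inj h2)

end Pool.Agent.Helper40.Pack
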