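import Pool.Agent.Helper40.Pack.Flow3

/-!
# Two step Hall for lines and coloured planes
-/

set_option autoImplicit false

namespace Pool.Agent.Helper40.Pack

section

variable {Z G H K : Type} [DecidableEq H] [DecidableEq K]

/-- Two lines share a plane in at most one colour: many planes. -/
theorem planes_count (F : Finset K) (al : G → Finset K) (pl : G → K → H) (t : ℕ)
    (hal : ∀ g, al g ⊆ F) (T : Finset G) (ht : ∀ g ∈ T, t ≤ (al g).card)
    (hcol : ∀ g g' : G, ∀ l ∈ al g, ∀ l' ∈ al g', pl g l = pl g' l' → l = l')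
    (hinj : ∀ g g' : G, ∀ l ∈ al g, ∀ l' ∈ al g, l ∈ al g' → l' ∈ al g' → l ≠ l' →
      pl g l = pl g' l → pl g l' = pl g' l' → g = g') :
    F.card * (t * (t - 1)) * T.card ≤
      (F.card - 1) * (T.biUnion (fun g => (al g).image (pl g))).card ^ 2 := by
  classical
  set Tl : K → Finset G := fun l => T.filter (fun g => l ∈ al g) with hTl
  set Nl : K → Finset H := fun l => (Tl l).image (fun g => pl g l) with hNl
  set n : K → ℕ := fun l => (Nl l).card with hn
  -- the planes
  have hP : (T.biUnion (fun g => (al g).image (pl g))).card = ∑ l ∈ F, n l := by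
    rw [← Finset.card_biUnion]
    · congr 1
      ext x
      simp only [Finset.mem_biUnion, Finset.mem_image, hNl, hTl, Finset.mem_filter]
      constructor
      · rintro ⟨g, hg, l, hl, rfl⟩
        exact ⟨l, hal g hl, g, ⟨hg, hl⟩, rfl⟩
      · rintro ⟨l, -, g, ⟨hg, hl⟩, rfl⟩
        exact ⟨g, hg, l, hl, rfl⟩
    · intro l _ l' _ hne
      show Disjoint (Nl l) (Nl l')
      rw [Finset.disjoint_left]
      intro x hx hx'
      simp only [hNl, hTl, Finset.mem_image, Finset.mem_filter] at hx hx'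
      obtain ⟨g, ⟨_, hl⟩, rfl⟩ := hx
      obtain ⟨g', ⟨_, hl'⟩, he⟩ := hx'
      exact hne (hcol g g' l hl l' hl' he.symm)
  rw [hP]
  -- pairs of colours
  have hpair : ∀ l ∈ F, ∀ l' ∈ F, l ≠ l' →
      (T.filter (fun g => l ∈ al g ∧ l' ∈ al g)).card ≤ n l * n l' := by
    intro l _ l' _ hne
    rw [hn, ← Finset.card_product]
    apply Finset.card_le_card_of_injOn (fun g => (pl g l, pl g l'))
    · intro g hg
      have hg' := Finset.mem_filter.mp (Finset.mem_coe.mp hg)
      apply Finset.mem_coe.mpr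
      rw [Finset.mem_product]
      exact ⟨Finset.mem_image.mpr ⟨g, Finset.mem_filter.mpr ⟨hg'.1, hg'.2.1⟩, rfl⟩,
        Finset.mem_image.mpr ⟨g, Finset.mem_filter.mpr ⟨hg'.1, hg'.2.2⟩, rfl⟩⟩
    · intro g hg g' hg' he
      have h1 := Finset.mem_filter.mp (Finset.mem_coe.mp hg)
      have h2 := Finset.mem_filter.mp (Finset.mem_coe.mp hg')
      have he' := Prod.mk.inj he
      exact hinj g g' l h1.2.1 l' h1.2.2 h2.2.1 h2.2.2 hne he'.1 he'.2
  -- sum over the ordered pairs
  have hsum : t * (t - 1) * T.card ≤ ∑ p ∈ F.offDiag, n p.1 * n p.2 := by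
    calc t * (t - 1) * T.card = ∑ g ∈ T, t * (t - 1) := by
          rw [Finset.sum_const, smul_eq_mul, mul_comm]
      _ ≤ ∑ g ∈ T, ((al g).offDiag).card := by
          apply Finset.sum_le_sum
          intro g hg
          rw [Finset.offDiag_card]
          have h1 := ht g hg
          calc t * (t - 1) ≤ (al g).card * ((al g).card - 1) :=
                Nat.mul_le_mul h1 (Nat.sub_le_sub_right h1 1)
            _ = (al g).card * (al g).card - (al g).card := by
                rw [Nat.mul_sub, mul_one]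
      _ = ∑ g ∈ T, ∑ p ∈ F.offDiag, (if p.1 ∈ al g ∧ p.2 ∈ al g then 1 else 0) := by
          apply Finset.sum_congr rfl
          intro g _
          rw [← Finset.sum_filter, Finset.sum_const, smul_eq_mul, mul_one]
          congr 1
          ext p
          simp only [Finset.mem_offDiag, Finset.mem_filter]
          constructor
          · rintro ⟨h1, h2, h3⟩
            exact ⟨⟨hal g h1, hal g h2, h3⟩, h1, h2⟩
          · rintro ⟨⟨-, -, h3⟩, h1, h2⟩
            exact ⟨h1, h2, h3⟩
      _ = ∑ p ∈ F.offDiag, ∑ g ∈ T, (if p.1 ∈ al g ∧ p.2 ∈ al g then 1 else 0) :=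
          Finset.sum_comm
      _ ≤ ∑ p ∈ F.offDiag, n p.1 * n p.2 := by
          apply Finset.sum_le_sum
          intro p hp
          obtain ⟨h1, h2, h3⟩ := Finset.mem_offDiag.mp hp
          rw [← Finset.sum_filter, Finset.sum_const, smul_eq_mul, mul_one]
          exact hpair p.1 h1 p.2 h2 h3
  -- Cauchy-Schwarz
  have hsq : (∑ l ∈ F, n l) ^ 2 = ∑ l ∈ F, n l ^ 2 + ∑ p ∈ F.offDiag, n p.1 * n p.2 := by
    rw [sq, Finset.sum_mul_sum, ← Finset.sum_product', ← Finset.diag_union_offDiag,
      Finset.sum_union (Finset.disjoint_diag_offDiag F)]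
    congr 1
    rw [Finset.sum_diag]
    exact Finset.sum_congr rfl (fun l _ => (sq (n l)).symm)
  have hcs : (∑ l ∈ F, n l) ^ 2 ≤ F.card * ∑ l ∈ F, n l ^ 2 := sq_sum_le_card_mul_sum_sq
  rcases Nat.eq_zero_or_pos F.card with h0 | h0
  · rw [h0]
    simp
  · have e1 : F.card * (t * (t - 1)) * T.card ≤
        F.card * ∑ p ∈ F.offDiag, n p.1 * n p.2 := by
      rw [mul_assoc]
      exact Nat.mul_le_mul_left _ hsum
    have e2 : F.card * ∑ p ∈ F.offDiag, n p.1 * n p.2 ≤ (F.card - 1) * (∑ l ∈ F, n l) ^ 2 := by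
      obtain ⟨m, hm⟩ : ∃ m, F.card = m + 1 := ⟨F.card - 1, by omega⟩
      rw [hm] at hcs ⊢
      rw [hsq] at hcs ⊢
      rw [Nat.add_sub_cancel]
      nlinarith [hcs]
    exact e1.trans e2

/-- Extras, unused lines and coloured planes: different lines and different planes. -/
theorem extras_serve [Fintype Z] [DecidableEq Z] [DecidableEq G] (F : Finset K)
    (al : G → Finset K) (pl : G → K → H) (t : ℕ) (ht2 : 2 ≤ t) (hal : ∀ g, al g ⊆ F)
    (zg : Z → Finset G) (ht : ∀ z, ∀ g ∈ zg z, t ≤ (al g).card)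
    (hcol : ∀ g g' : G, ∀ l ∈ al g, ∀ l' ∈ al g', pl g l = pl g' l' → l = l')
    (hinj : ∀ g g' : G, ∀ l ∈ al g, ∀ l' ∈ al g, l ∈ al g' → l' ∈ al g' → l ≠ l' →
      pl g l = pl g' l → pl g l' = pl g' l' → g = g')
    (h1 : ∀ S : Finset Z, S.card ≤ (S.biUnion zg).card)
    (h2 : ∀ S : Finset Z, (F.card - 1) * S.card ^ 2 ≤
      F.card * (t * (t - 1)) * (S.biUnion zg).card) :
    ∃ (a : Z → G) (c : Z → K), Function.Injective a ∧
      (∀ z, a z ∈ zg z ∧ c z ∈ al (a z)) ∧ Function.Injective (fun z => pl (a z) (c z)) := by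
  classical
  obtain ⟨a, b, ha, hb, hab⟩ := hall_two_step zg (fun g => (al g).image (pl g)) (by
    intro S T hT
    by_contra hlt
    push Not at hlt
    set L := S.biUnion zg with hL
    set p := ((L \ T).biUnion (fun g => (al g).image (pl g))).card with hp
    have e1 := planes_count F al pl t hal (L \ T) (by
      intro g hg
      obtain ⟨z, _, hz⟩ := Finset.mem_biUnion.mp (Finset.mem_sdiff.mp hg).1
      exact ht z g hz) hcol hinj
    rw [← hp] at e1
    have e2 := h1 S
    have e3 := h2 S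
    rw [← hL] at e2 e3
    have e4 : (L \ T).card + T.card = L.card := Finset.card_sdiff_add_card_eq_card hT
    set D := F.card * (t * (t - 1)) with hD
    set E := F.card - 1 with hE
    have hlam : p < (L \ T).card := by omega
    have hDpos : 0 < D := by
      have hne : (L \ T).Nonempty := Finset.card_pos.mp (by omega)
      obtain ⟨g, hg⟩ := hne
      obtain ⟨z, _, hz⟩ := Finset.mem_biUnion.mp (Finset.mem_sdiff.mp hg).1
      have h3 := ht z g hz
      have h4 := Finset.card_le_card (hal g)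
      have h5 : 0 < F.card := by omega
      have h6 : 0 < t * (t - 1) := Nat.mul_pos (by omega) (by omega)
      exact Nat.mul_pos h5 h6
    have hEp : D < E * p := by
      have h3 : D * (p + 1) ≤ E * p ^ 2 := (Nat.mul_le_mul_left D hlam).trans e1
      by_contra h4
      push Not at h4
      have h5 : E * p ^ 2 ≤ D * p := by
        calc E * p ^ 2 = E * p * p := by ring
          _ ≤ D * p := Nat.mul_le_mul_right p h4
      nlinarith
    obtain ⟨d, hd⟩ : ∃ d, S.card = T.card + p + 1 + d := ⟨S.card - (T.card + p + 1), by omega⟩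
    rw [hd, ← e4] at e3
    -- e3 : E (tau + p + 1 + d)^2 <= D (lam + tau)
    have h6 : E * (T.card + p + 1 + d) ^ 2 ≤ E * p ^ 2 + D * T.card := by
      calc E * (T.card + p + 1 + d) ^ 2 ≤ D * ((L \ T).card + T.card) := e3
        _ = D * (L \ T).card + D * T.card := by ring
        _ ≤ E * p ^ 2 + D * T.card := Nat.add_le_add_right e1 _
    have h7 : E * p ^ 2 + E * p * (T.card + 1) ≤ E * (T.card + p + 1 + d) ^ 2 := by
      have h8 : p ^ 2 + p * (T.card + 1) ≤ (T.card + p + 1 + d) ^ 2 := by nlinarith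
      calc E * p ^ 2 + E * p * (T.card + 1) = E * (p ^ 2 + p * (T.card + 1)) := by ring
        _ ≤ E * (T.card + p + 1 + d) ^ 2 := Nat.mul_le_mul_left E h8
    have h9 : D * (T.card + 1) ≤ E * p * (T.card + 1) := Nat.mul_le_mul_right _ hEp.le
    nlinarith)
  choose c hc1 hc2 using fun z => Finset.mem_image.mp (hab z).2
  refine ⟨a, c, ha, fun z => ⟨(hab z).1, hc1 z⟩, ?_⟩
  intro z z' he
  apply hb
  rw [← hc2 z, ← hc2 z']
  exact he

end

end Pool.Agent.Helper40.Pack
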