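import Pool.Agent.Helper38.Thick.Frame

/-!
# The planes with many points
-/

set_option autoImplicit false
set_option linter.unusedSectionVars false

namespace Pool.Agent.Helper40.Pack

open Pool.Agent.Helper28.BPack Pool.Agent.Helper61.Motz Pool.Agent.Helper38.Thick

/-- Large sets which pairwise meet in few points have a small total size. -/
theorem large_sum_abs {α ι : Type} [DecidableEq α] [DecidableEq ι] (A : Finset α) (T : Finset ι)
    (f : ι → Finset α) (M : ℕ) (hf : ∀ i ∈ T, f i ⊆ A)
    (hM : ∀ i ∈ T, ∀ j ∈ T, i ≠ j → (f i ∩ f j).card ≤ M)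
    (hbig : ∀ i ∈ T, 4 * A.card * M < (f i).card ^ 2) :
    3 * ∑ i ∈ T, (f i).card ≤ 4 * A.card := by
  classical
  set S : ℕ := ∑ i ∈ T, (f i).card with hS
  set n : ℕ := A.card with hn
  have hc : ∀ i ∈ T, (f i).card = ∑ a ∈ A, (if a ∈ f i then 1 else 0) := by
    intro i hi
    rw [← Finset.sum_filter, Finset.sum_const, smul_eq_mul, mul_one]
    congr 1
    ext a
    rw [Finset.mem_filter]
    exact ⟨fun h => ⟨hf i hi h, h⟩, fun h => h.2⟩
  set d : α → ℕ := fun a => ∑ i ∈ T, (if a ∈ f i then 1 else 0) with hd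
  have hSd : S = ∑ a ∈ A, d a := by
    rw [hS, Finset.sum_congr rfl hc, Finset.sum_comm]
  have hd2 : ∑ a ∈ A, d a ^ 2 = ∑ i ∈ T, ∑ j ∈ T, (f i ∩ f j).card := by
    have e1 : ∀ a, d a ^ 2 = ∑ i ∈ T, ∑ j ∈ T, (if a ∈ f i ∩ f j then 1 else 0) := by
      intro a
      rw [sq, hd, Finset.sum_mul_sum]
      refine Finset.sum_congr rfl (fun i _ => Finset.sum_congr rfl (fun j _ => ?_))
      by_cases h1 : a ∈ f i <;> by_cases h2 : a ∈ f j <;> simp [h1, h2]
    rw [Finset.sum_congr rfl (fun a _ => e1 a), Finset.sum_comm]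
    refine Finset.sum_congr rfl (fun i hi => ?_)
    rw [Finset.sum_comm]
    refine Finset.sum_congr rfl (fun j hj => ?_)
    rw [← Finset.sum_filter, Finset.sum_const, smul_eq_mul, mul_one]
    congr 1
    ext a
    rw [Finset.mem_filter]
    exact ⟨fun h => h.2, fun h => ⟨hf i hi (Finset.mem_inter.mp h).1, h⟩⟩
  have hle : ∑ a ∈ A, d a ^ 2 ≤ S + T.card ^ 2 * M := by
    rw [hd2]
    calc ∑ i ∈ T, ∑ j ∈ T, (f i ∩ f j).card ≤ ∑ i ∈ T, ((f i).card + T.card * M) := by
          refine Finset.sum_le_sum (fun i hi => ?_)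
          calc ∑ j ∈ T, (f i ∩ f j).card ≤ ∑ j ∈ T, ((if j = i then (f i).card else 0) + M) := by
                refine Finset.sum_le_sum (fun j hj => ?_)
                by_cases h : j = i
                · subst h
                  simp
                · rw [if_neg h, zero_add]
                  exact hM i hi j hj (Ne.symm h)
            _ = (f i).card + T.card * M := by
                rw [Finset.sum_add_distrib, Finset.sum_ite_eq' T i, if_pos hi, Finset.sum_const,
                  smul_eq_mul]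
      _ = S + T.card ^ 2 * M := by
          rw [Finset.sum_add_distrib, Finset.sum_const, smul_eq_mul, ← hS]
          ring
  have hcs : S ^ 2 ≤ n * ∑ a ∈ A, d a ^ 2 := by
    rw [hSd]
    exact sq_sum_le_card_mul_sum_sq
  have hT : T.card ^ 2 * (4 * n * M) ≤ S ^ 2 := by
    rcases T.eq_empty_or_nonempty with h | h
    · rw [h]
      simp
    · obtain ⟨i0, hi0, hmin⟩ := Finset.exists_min_image T (fun i => (f i).card) h
      have h1 : T.card * (f i0).card ≤ S := by
        calc T.card * (f i0).card = ∑ _i ∈ T, (f i0).card := by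
              rw [Finset.sum_const, smul_eq_mul]
          _ ≤ S := Finset.sum_le_sum (fun i hi => hmin i hi)
      calc T.card ^ 2 * (4 * n * M) ≤ T.card ^ 2 * (f i0).card ^ 2 :=
            Nat.mul_le_mul_left _ (hbig i0 hi0).le
        _ = (T.card * (f i0).card) ^ 2 := by ring
        _ ≤ S ^ 2 := Nat.pow_le_pow_left h1 2
  have hfin : 3 * S * S ≤ 4 * n * S := by
    have h1 : S ^ 2 ≤ n * (S + T.card ^ 2 * M) := hcs.trans (Nat.mul_le_mul_left n hle)
    nlinarith
  rcases Nat.eq_zero_or_pos S with h0 | h0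
  · rw [h0]
    simp
  · exact Nat.le_of_mul_le_mul_right hfin h0

variable {L : Type} [Lattice L] [BoundedOrder L] [Finite L] [IsUpperModularLattice L]
  [DecidableEq L] [DecidableRel (α := L) (· ≤ ·)]

/-- **The total number of points of the large planes.** -/
theorem large_sum {A : Finset L} (hA : ∀ a ∈ A, IsAtom a) {M : ℕ}
    (hM : ∀ g, rk g = 2 → (A.filter (· ≤ g)).card ≤ M) (T : Finset L)
    (hT : ∀ H ∈ T, rk H = 3 ∧ 4 * A.card * M < (A.filter (· ≤ H)).card ^ 2) :
    3 * ∑ H ∈ T, (A.filter (· ≤ H)).card ≤ 4 * A.card := by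
  classical
  refine large_sum_abs A T (fun H => A.filter (· ≤ H)) M (fun H _ => Finset.filter_subset _ _) ?_
    (fun H hH => (hT H hH).2)
  intro H hH H' hH' hne
  have r1 := (hT H hH).1
  have r2 := (hT H' hH').1
  rcases Finset.eq_empty_or_nonempty (A.filter (· ≤ H) ∩ A.filter (· ≤ H')) with h | ⟨a, ha⟩
  · rw [h]
    simp
  · have ha1 := Finset.mem_filter.mp (Finset.mem_inter.mp ha).1
    have ha2 := Finset.mem_filter.mp (Finset.mem_inter.mp ha).2
    have haA := hA a ha1.1
    by_cases hex : ∃ b ∈ A.filter (· ≤ H) ∩ A.filter (· ≤ H'), b ≠ a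
    · obtain ⟨b, hb, hba⟩ := hex
      have hb1 := Finset.mem_filter.mp (Finset.mem_inter.mp hb).1
      have hb2 := Finset.mem_filter.mp (Finset.mem_inter.mp hb).2
      have hbA := hA b hb1.1
      have hl := rk_line haA hbA (Ne.symm hba)
      refine le_trans (Finset.card_le_card ?_) (hM (a ⊔ b) hl)
      intro x hx
      have hx1 := Finset.mem_filter.mp (Finset.mem_inter.mp hx).1
      have hx2 := Finset.mem_filter.mp (Finset.mem_inter.mp hx).2
      exact Finset.mem_filter.mpr ⟨hx1.1, inter_line r1 r2 hl (hA x hx1.1) (sup_le ha1.2 hb1.2)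
        (sup_le ha2.2 hb2.2) hx1.2 hx2.2 hne⟩
    · push Not at hex
      have hlt : a < H := lt_of_le_of_ne ha1.2 (fun e => by
        have := rk_atom haA
        rw [e, r1] at this
        omega)
      obtain ⟨g, hg1, hg2⟩ := exists_covBy_le_of_lt hlt
      have hg3 : rk g = 2 := by rw [rk_covBy hg1, rk_atom haA]
      refine le_trans (Finset.card_le_card ?_) (hM g hg3)
      intro x hx
      have hxa := hex x hx
      rw [hxa]
      exact Finset.mem_filter.mpr ⟨ha1.1, hg1.le⟩

end Pool.Agent.Helper40.Pack
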