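import Pool.Agent.Helper40.Pack.Level2E

/-!
# Level two with forbidden pairs and no lonely user; Hall's theorem from shares
-/

set_option autoImplicit false
set_option linter.unusedSectionVars false

namespace Pool.Agent.Helper40.Pack

open Pool.Agent.Helper28.BPack Pool.Agent.Helper61.Motz Pool.Agent.Helper28.Level2

/-- Hall's theorem from shares: `x` asks `τ x y` of `y`, total at least one, and every `y` is
asked for at most one. -/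
theorem hall_of_shares {X Y : Type} [Fintype X] [DecidableEq X] [DecidableEq Y]
    (W : X → Finset Y) (τ : X → Y → ℚ) (h0 : ∀ x y, 0 ≤ τ x y)
    (hdem : ∀ x, 1 ≤ ∑ y ∈ W x, τ x y)
    (hload : ∀ y, ∑ x ∈ Finset.univ.filter (fun x => y ∈ W x), τ x y ≤ 1) :
    ∃ F : X → Y, Function.Injective F ∧ ∀ x, F x ∈ W x := by
  apply (Finset.all_card_le_biUnion_card_iff_exists_injective W).mp
  intro s
  have h1 : (s.card : ℚ) ≤ ∑ x ∈ s, ∑ y ∈ W x, τ x y := by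
    calc (s.card : ℚ) = ∑ x ∈ s, (1 : ℚ) := by simp
      _ ≤ _ := Finset.sum_le_sum fun x _ => hdem x
  have h2 : ∑ x ∈ s, ∑ y ∈ W x, τ x y =
      ∑ y ∈ s.biUnion W, ∑ x ∈ s.filter (fun x => y ∈ W x), τ x y := by
    have h3 : ∀ x ∈ s, ∑ y ∈ W x, τ x y = ∑ y ∈ s.biUnion W, if y ∈ W x then τ x y else 0 := by
      intro x hx
      rw [← Finset.sum_filter]
      apply Finset.sum_congr
      · ext y
        rw [Finset.mem_filter, Finset.mem_biUnion]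
        exact ⟨fun h => ⟨⟨x, hx, h⟩, h⟩, fun h => h.2⟩
      · intros; rfl
    rw [Finset.sum_congr rfl h3, Finset.sum_comm]
    apply Finset.sum_congr rfl
    intro y _
    rw [Finset.sum_filter]
  have h4 : ∑ y ∈ s.biUnion W, ∑ x ∈ s.filter (fun x => y ∈ W x), τ x y ≤
      ((s.biUnion W).card : ℚ) := by
    calc _ ≤ ∑ y ∈ s.biUnion W, (1 : ℚ) := by
          apply Finset.sum_le_sum
          intro y _
          refine le_trans ?_ (hload y)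
          apply Finset.sum_le_sum_of_subset_of_nonneg
          · intro x hx
            rw [Finset.mem_filter] at hx ⊢
            exact ⟨Finset.mem_univ _, hx.2⟩
          · intro x _ _
            exact h0 x y
      _ = _ := by simp
  have h5 : (s.card : ℚ) ≤ ((s.biUnion W).card : ℚ) := by linarith
  exact_mod_cast h5

variable {L : Type} [Lattice L] [BoundedOrder L] [Finite L] [IsUpperModularLattice L]

/-- `H` contains no representative of the classes of `G`. -/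
def RepFree (G : Finset L) (r1 r2 : L) (r : L → L) (H : L) : Prop :=
  ¬ r1 ≤ H ∧ ¬ r2 ≤ H ∧ ∀ y ∈ G, ¬ r y ≤ H

/-- LEVEL 2: forbidden pairs, and every plane used contains a representative or a second
user. -/
theorem level2R {A G : Finset L} {u v c r1 r2 : L} {r : L → L} (bad : L → L → Prop)
    (hA : ∀ a ∈ A, IsAtom a) (hrA : rk (A.sup id) = 4) (hu : rk u = 2) (hv : rk v = 2)
    (huv : rk (u ⊔ v) = 4) (hc : c ∈ A) (hcu : c ≤ u)
    (hr1 : r1 ∈ A) (hr2 : r2 ∈ A) (hr1v : r1 ≤ v) (hr2v : r2 ≤ v) (hr12 : r1 ≠ r2)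
    (hG : ∀ x ∈ G, x ∈ A ∧ ¬ x ≤ u ∧ r x ∈ A ∧ ¬ r x ≤ u ∧ r x ≤ x ⊔ u ∧ ¬ r x ≤ x ⊔ c)
    (hcl : ∀ x ∈ G, ∀ y ∈ G, x ⊔ u = y ⊔ u → r x = r y)
    (hc1 : ∀ x ∈ G, x ⊔ u = r1 ⊔ u → r x = r1) (hc2 : ∀ x ∈ G, x ⊔ u = r2 ⊔ u → r x = r2)
    (hinj : ∀ x ∈ G, ∀ y ∈ G, x ⊔ c = y ⊔ c → x = y)
    (hbad1 : ∀ H, RepFree G r1 r2 r H → ∀ x ∈ G, ∀ y ∈ G, x ≤ H → y ≤ H → bad x H → bad y H →
      x = y)
    (hno : ∀ x ∈ G, x ≤ c ⊔ v → ∃ H, rk H = 3 ∧ x ⊔ c ≤ H ∧ ¬ u ≤ H ∧ H ≠ c ⊔ v ∧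
      (∃ z ∈ A, z ≤ H ∧ ¬ z ≤ x ⊔ c) ∧
      (RepFree G r1 r2 r H → ¬ bad x H ∧ ∃ y ∈ G, y ≤ H ∧ y ≠ x)) :
    ∃ H : L → L, (∀ x ∈ G, rk (H x) = 3 ∧ x ⊔ c ≤ H x ∧ ¬ u ≤ H x ∧ H x ≠ c ⊔ v ∧
        (∃ z ∈ A, z ≤ H x ∧ ¬ z ≤ x ⊔ c) ∧
        (RepFree G r1 r2 r (H x) → ¬ bad x (H x) ∧ ∃ y ∈ G, y ≤ H x ∧ y ≠ x)) ∧
      (∀ x ∈ G, ∀ y ∈ G, H x = H y → x = y) := by
  obtain ⟨H, h1, h2⟩ := level2E (A := A) (G := G) (u := u) (v := v) (c := c) (r1 := r1)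
    (r2 := r2) (r := r)
    (fun x H => RepFree G r1 r2 r H ∧ (bad x H ∨ ∀ y ∈ G, y ≤ H → y = x))
    hA hrA hu hv huv hc hcu hr1 hr2 hr1v hr2v hr12 hG hcl hc1 hc2 hinj
    (by
      rintro H x hx y hy hxH hyH ⟨h3, h4⟩ ⟨-, h5⟩
      rcases h4 with h4 | h4
      · rcases h5 with h5 | h5
        · exact hbad1 H h3 x hx y hy hxH hyH h4 h5
        · exact h5 x hx hxH
      · exact (h4 y hy hyH).symm)
    (by
      rintro H x hx hxH ⟨h3, -⟩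
      exact h3)
    (by
      intro x hx hxv
      obtain ⟨H, k1, k2, k3, k4, k5, k6⟩ := hno x hx hxv
      refine ⟨H, k1, k2, k3, k4, k5, ?_⟩
      rintro ⟨h3, h4 | h4⟩
      · exact (k6 h3).1 h4
      · obtain ⟨y, hy, hyH, hyx⟩ := (k6 h3).2
        exact hyx (h4 y hy hyH))
  refine ⟨H, ?_, h2⟩
  intro x hx
  obtain ⟨k1, k2, k3, k4, k5, k6⟩ := h1 x hx
  refine ⟨k1, k2, k3, k4, k5, ?_⟩
  intro h3
  refine ⟨fun h4 => k6 ⟨h3, Or.inl h4⟩, ?_⟩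
  by_contra hcon
  push Not at hcon
  exact k6 ⟨h3, Or.inr hcon⟩

end Pool.Agent.Helper40.Pack
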