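import Pool.Agent.Helper38.Thick.Level1
import Pool.Agent.Helper40.Pack.Shares

/-!
# Level one with an order of the points of `u`: prefix sums and stability
-/

set_option autoImplicit false
set_option linter.unusedSectionVars false

namespace Pool.Agent.Helper40.Pack

open Pool.Agent.Helper28.BPack Pool.Agent.Helper61.Motz Pool.Agent.Helper38.Thick

/-- Cutting the weights in the order of `idx` at total one. -/
theorem cut_sum {α : Type} [DecidableEq α] (T : Finset α) (wt : α → ℚ) (idx : α → ℕ)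
    (h0 : ∀ k ∈ T, 0 ≤ wt k) (hinj : ∀ a ∈ T, ∀ b ∈ T, idx a = idx b → a = b)
    (hsum : 1 ≤ ∑ k ∈ T, wt k) :
    1 ≤ ∑ k ∈ T.filter (fun k => ∑ j ∈ T.filter (fun j => idx j < idx k), wt j < 1),
      min (wt k) (1 - ∑ j ∈ T.filter (fun j => idx j < idx k), wt j) := by
  set P : α → ℚ := fun k => ∑ j ∈ T.filter (fun j => idx j < idx k), wt j with hP
  change 1 ≤ ∑ k ∈ T.filter (fun k => P k < 1), min (wt k) (1 - P k)
  have key : ∀ T0 ⊆ T, (∀ a ∈ T0, ∀ b ∈ T, idx b < idx a → b ∈ T0) → (∀ k ∈ T0, P k < 1) →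
      1 ≤ ∑ k ∈ T0, wt k → 1 ≤ ∑ k ∈ T0, min (wt k) (1 - P k) := by
    intro T0 hT0 hdown hP1 hs
    have hne : T0.Nonempty := by
      rw [Finset.nonempty_iff_ne_empty]
      rintro rfl
      rw [Finset.sum_empty] at hs
      linarith
    obtain ⟨m, hm, hmax⟩ := Finset.exists_max_image T0 idx hne
    have e1 : T.filter (fun j => idx j < idx m) = T0.erase m := by
      ext b
      rw [Finset.mem_filter, Finset.mem_erase]
      constructor
      · rintro ⟨hb, hlt⟩
        exact ⟨fun h => by rw [h] at hlt; exact lt_irrefl _ hlt, hdown m hm b hb hlt⟩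
      · rintro ⟨hbm, hb⟩
        refine ⟨hT0 hb, lt_of_le_of_ne (hmax b hb) fun h => hbm (hinj b (hT0 hb) m (hT0 hm) h)⟩
    have e2 : P m = ∑ k ∈ T0.erase m, wt k := by
      simp only [hP]
      rw [e1]
    have e3 : ∑ k ∈ T0.erase m, wt k + wt m = ∑ k ∈ T0, wt k := Finset.sum_erase_add _ _ hm
    have h4 : ∀ k ∈ T0.erase m, min (wt k) (1 - P k) = wt k := by
      intro k hk
      rw [Finset.mem_erase] at hk
      have hlt : idx k < idx m :=
        lt_of_le_of_ne (hmax k hk.2) fun h => hk.1 (hinj k (hT0 hk.2) m (hT0 hm) h)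
      have hsub : insert k (T.filter (fun j => idx j < idx k)) ⊆
          T.filter (fun j => idx j < idx m) := by
        intro b hb
        rw [Finset.mem_insert] at hb
        rcases hb with rfl | hb
        · exact Finset.mem_filter.mpr ⟨hT0 hk.2, hlt⟩
        · rw [Finset.mem_filter] at hb ⊢
          exact ⟨hb.1, hb.2.trans hlt⟩
      have h5 := Finset.sum_le_sum_of_subset_of_nonneg (f := wt) hsub
        (fun b hb _ => h0 b (Finset.mem_filter.mp hb).1)
      have hnot : k ∉ T.filter (fun j => idx j < idx k) := by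
        intro h
        exact lt_irrefl _ (Finset.mem_filter.mp h).2
      rw [Finset.sum_insert hnot] at h5
      have h6 : wt k + P k ≤ P m := h5
      have h7 := hP1 m hm
      exact min_eq_left (by linarith)
    rw [← Finset.sum_erase_add _ _ hm, Finset.sum_congr rfl h4]
    have h8 : min (wt m) (1 - P m) = 1 - P m := min_eq_right (by linarith)
    rw [h8, ← e2]
    linarith
  have hfin : ∀ T0 ⊆ T, (∀ k ∈ T0, P k < 1) → ∑ k ∈ T0, min (wt k) (1 - P k) ≤
      ∑ k ∈ T.filter (fun k => P k < 1), min (wt k) (1 - P k) := by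
    intro T0 hT0 hP1
    apply Finset.sum_le_sum_of_subset_of_nonneg
    · intro k hk
      exact Finset.mem_filter.mpr ⟨hT0 hk, hP1 k hk⟩
    · intro k hk _
      rw [Finset.mem_filter] at hk
      exact le_min (h0 k hk.1) (by linarith [hk.2])
  by_cases h : ∃ k ∈ T, 1 ≤ P k
  · obtain ⟨k1, hk1, hk1'⟩ := h
    obtain ⟨k0, hk0, hmin⟩ := Finset.exists_min_image (T.filter (fun k => 1 ≤ P k)) idx
      ⟨k1, Finset.mem_filter.mpr ⟨hk1, hk1'⟩⟩
    rw [Finset.mem_filter] at hk0
    have hsub : T.filter (fun j => idx j < idx k0) ⊆ T := Finset.filter_subset _ _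
    have hP1 : ∀ j ∈ T.filter (fun j => idx j < idx k0), P j < 1 := by
      intro j hj
      rw [Finset.mem_filter] at hj
      by_contra hcon
      have := hmin j (Finset.mem_filter.mpr ⟨hj.1, not_lt.mp hcon⟩)
      omega
    refine le_trans (key _ hsub ?_ hP1 hk0.2) (hfin _ hsub hP1)
    intro a ha b hb hlt
    rw [Finset.mem_filter] at ha ⊢
    exact ⟨hb, hlt.trans ha.2⟩
  · push Not at h
    exact le_trans (key T (fun _ h => h) (fun a _ b hb _ => hb) h hsum) (hfin T (fun _ h => h) h)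

variable {L : Type} [Lattice L] [BoundedOrder L] [Finite L] [IsUpperModularLattice L]

/-- LEVEL 1 with an order of the points of `u`: different lines `x ⊔ cc x`, the shares of the
earlier colours sum to less than one, and every earlier allowed line is in use. -/
theorem level1P {A R : Finset L} {u : L} {r : L → L} [DecidableEq L]
    [DecidableRel (α := L) (· ≤ ·)]
    (hA : ∀ a ∈ A, IsAtom a) (hu : rk u = 2) (hU : 2 ≤ (A.filter (· ≤ u)).card)
    (hmax : ∀ k, rk k = 2 → (∃ c ∈ A, c ≤ u ∧ c ≤ k) →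
      (A.filter (· ≤ k)).card ≤ (A.filter (· ≤ u)).card)
    (hR : ∀ x ∈ R, x ∈ A ∧ ¬ x ≤ u ∧ IsAtom (r x) ∧ r x ≠ x)
    (idx : L → ℕ) (hidx : ∀ a ∈ A, a ≤ u → ∀ b ∈ A, b ≤ u → idx a = idx b → a = b) :
    ∃ cc : L → L, (∀ x ∈ R, cc x ∈ A ∧ cc x ≤ u ∧ ¬ r x ≤ x ⊔ cc x) ∧
      (∀ x ∈ R, ∀ y ∈ R, x ⊔ cc x = y ⊔ cc y → x = y) ∧
      (∀ x ∈ R, ∑ c ∈ A.filter (fun c => c ≤ u ∧ idx c < idx (cc x) ∧ ¬ r x ≤ x ⊔ c),
        (1 : ℚ) / ((A.filter (· ≤ x ⊔ c)).card - 1) < 1) ∧
      (∀ x ∈ R, ∀ c ∈ A, c ≤ u → idx c < idx (cc x) → ¬ r x ≤ x ⊔ c →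
        ∃ y ∈ R, cc y = c ∧ y ≤ x ⊔ c) := by
  set U := A.filter (· ≤ u) with hUdef
  have hmU : ∀ c, c ∈ U ↔ c ∈ A ∧ c ≤ u := fun c => by simp [hUdef]
  have hne : ∀ x ∈ R, ∀ c ∈ U, x ≠ c := by
    rintro x hx c hc rfl
    exact (hR x hx).2.1 ((hmU x).mp hc).2
  have hrk : ∀ x ∈ R, ∀ c ∈ U, rk (x ⊔ c) = 2 := fun x hx c hc =>
    rk_line (hA x (hR x hx).1) (hA c ((hmU c).mp hc).1) (hne x hx c hc)
  -- a line through a user has at most one point of `u`
  have huniq : ∀ x ∈ R, ∀ k, rk k = 2 → x ≤ k → ∀ c ∈ U, ∀ c' ∈ U, c ≤ k → c' ≤ k → c = c' := by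
    intro x hx k hk hxk c hc c' hc' hck hck'
    by_contra hcc
    have hcU := (hmU c).mp hc
    have hcU' := (hmU c').mp hc'
    have h1 := line_two (hA c hcU.1) (hA c' hcU'.1) hcc hck hck' hk hcU.2 hcU'.2 hu
    exact (hR x hx).2.1 (h1 ▸ hxk)
  set T : L → Finset L := fun x => U.filter (fun c => ¬ r x ≤ x ⊔ c) with hT
  have hmT : ∀ x c, c ∈ T x ↔ c ∈ U ∧ ¬ r x ≤ x ⊔ c := fun x c => by simp [hT]
  set wt : L → L → ℚ := fun x c => (1 : ℚ) / ((A.filter (· ≤ x ⊔ c)).card - 1) with hwt
  have hcard2 : ∀ x ∈ R, ∀ c ∈ U, 2 ≤ (A.filter (· ≤ x ⊔ c)).card := by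
    intro x hx c hc
    have h1 : ({x, c} : Finset L) ⊆ A.filter (· ≤ x ⊔ c) := by
      intro z hz
      rw [Finset.mem_insert, Finset.mem_singleton] at hz
      rw [Finset.mem_filter]
      rcases hz with rfl | rfl
      · exact ⟨(hR _ hx).1, le_sup_left⟩
      · exact ⟨((hmU _).mp hc).1, le_sup_right⟩
    have h2 := Finset.card_le_card h1
    rwa [Finset.card_pair (hne x hx c hc)] at h2
  have hcardU : ∀ x ∈ R, ∀ c ∈ U, (A.filter (· ≤ x ⊔ c)).card ≤ U.card := fun x hx c hc =>
    hmax _ (hrk x hx c hc) ⟨c, ((hmU c).mp hc).1, ((hmU c).mp hc).2, le_sup_right⟩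
  have hwt0 : ∀ x ∈ R, ∀ c ∈ U, 0 ≤ wt x c := by
    intro x hx c hc
    have h1 : (2 : ℚ) ≤ (A.filter (· ≤ x ⊔ c)).card := by exact_mod_cast hcard2 x hx c hc
    exact div_nonneg zero_le_one (by linarith)
  have hTcard : ∀ x ∈ R, U.card - 1 ≤ (T x).card := by
    intro x hx
    have h2 : (U.filter (fun c => r x ≤ x ⊔ c)).card ≤ 1 := by
      rw [Finset.card_le_one]
      intro c hc c' hc'
      rw [Finset.mem_filter] at hc hc'
      have hrx := (hR x hx).2.2
      have e1 := line_of (hA x (hR x hx).1) hrx.1 hrx.2.symm (le_sup_left : x ≤ x ⊔ c) hc.2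
        (hrk x hx c hc.1)
      have e2 := line_of (hA x (hR x hx).1) hrx.1 hrx.2.symm (le_sup_left : x ≤ x ⊔ c') hc'.2
        (hrk x hx c' hc'.1)
      exact huniq x hx (x ⊔ c) (hrk x hx c hc.1) le_sup_left c hc.1 c' hc'.1 le_sup_right
        (by rw [← e1, e2]; exact le_sup_right)
    have h3 := Finset.card_filter_add_card_filter_not (s := U) (fun c => r x ≤ x ⊔ c)
    have h4 : (T x).card = (U.filter (fun c => ¬ r x ≤ x ⊔ c)).card := rfl
    omega
  have hsum : ∀ x ∈ R, 1 ≤ ∑ c ∈ T x, wt x c := by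
    intro x hx
    have h1 : ∀ c ∈ T x, (1 : ℚ) / (U.card - 1) ≤ wt x c := by
      intro c hc
      have hcU := ((hmT x c).mp hc).1
      have h2 : (2 : ℚ) ≤ (A.filter (· ≤ x ⊔ c)).card := by exact_mod_cast hcard2 x hx c hcU
      have h3 : ((A.filter (· ≤ x ⊔ c)).card : ℚ) ≤ U.card := by exact_mod_cast hcardU x hx c hcU
      exact one_div_le_one_div_of_le (by linarith) (by linarith)
    have h2 := Finset.sum_le_sum h1
    rw [Finset.sum_const, nsmul_eq_mul] at h2
    refine le_trans ?_ h2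
    have h3 : ((U.card : ℚ) - 1) ≤ (T x).card := by
      have := hTcard x hx
      have h4 : U.card ≤ (T x).card + 1 := by omega
      have h5 : (U.card : ℚ) ≤ (T x).card + 1 := by exact_mod_cast h4
      linarith
    have h4 : (0 : ℚ) < (U.card : ℚ) - 1 := by
      have : (2 : ℚ) ≤ U.card := by exact_mod_cast hU
      linarith
    rw [mul_one_div, le_div_iff₀ h4]
    linarith
  have hidxT : ∀ x, ∀ a ∈ T x, ∀ b ∈ T x, idx a = idx b → a = b := by
    intro x a ha b hb e
    have ha' := (hmU a).mp ((hmT x a).mp ha).1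
    have hb' := (hmU b).mp ((hmT x b).mp hb).1
    exact hidx a ha'.1 ha'.2 b hb'.1 hb'.2 e
  set P : L → L → ℚ := fun x c => ∑ j ∈ (T x).filter (fun j => idx j < idx c), wt x j with hP
  set W : L → Finset L := fun x => (T x).filter (fun c => P x c < 1) with hW
  have hmW : ∀ x c, c ∈ W x ↔ (c ∈ U ∧ ¬ r x ≤ x ⊔ c) ∧ P x c < 1 := fun x c => by
    simp only [hW, Finset.mem_filter, hmT]
  have hWs : ∀ x ∈ R, 1 ≤ ∑ c ∈ W x, min (wt x c) (1 - P x c) := by
    intro x hx
    exact cut_sum (T x) (wt x) idx (fun k hk => hwt0 x hx k ((hmT x k).mp hk).1) (hidxT x)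
      (hsum x hx)
  have hmono : ∀ x ∈ R, ∀ c c', idx c ≤ idx c' → P x c ≤ P x c' := by
    intro x hx c c' hcc
    apply Finset.sum_le_sum_of_subset_of_nonneg
    · intro j hj
      rw [Finset.mem_filter] at hj ⊢
      exact ⟨hj.1, lt_of_lt_of_le hj.2 hcc⟩
    · intro j hj _
      exact hwt0 x hx j ((hmT x j).mp (Finset.mem_filter.mp hj).1).1
  -- Hall
  have hex : ∃ cc : L → L, (∀ x ∈ R, cc x ∈ W x) ∧
      ∀ x ∈ R, ∀ y ∈ R, x ⊔ cc x = y ⊔ cc y → x = y := by
    obtain ⟨F, hF, hFW⟩ := hall_of_shares (X := {x // x ∈ R}) (Y := L)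
      (fun x => (W x.1).image (fun c => x.1 ⊔ c))
      (fun x k => ∑ c ∈ (W x.1).filter (fun c => x.1 ⊔ c = k),
        max 0 (min (wt x.1 c) (1 - P x.1 c)))
      (fun x k => Finset.sum_nonneg fun _ _ => le_max_left _ _)
      (by
        intro x
        rw [Finset.sum_fiberwise_of_maps_to
          (fun c hc => Finset.mem_image_of_mem (fun c => x.1 ⊔ c) hc)]
        exact le_trans (hWs x.1 x.2) (Finset.sum_le_sum fun c _ => le_max_right _ _))
      (by
        intro k
        rcases (Finset.univ.filter (fun x : {x // x ∈ R} =>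
          k ∈ (W x.1).image (fun c => x.1 ⊔ c))).eq_empty_or_nonempty with h0 | ⟨x0, hx0⟩
        · rw [h0, Finset.sum_empty]
          exact zero_le_one
        rw [Finset.mem_filter, Finset.mem_image] at hx0
        obtain ⟨-, c0, hc0, hk0⟩ := hx0
        have hc0U := ((hmW _ _).mp hc0).1.1
        have hc0' := (hmU c0).mp hc0U
        have hk2 : rk k = 2 := hk0 ▸ hrk x0.1 x0.2 c0 hc0U
        have hc0k : c0 ≤ k := hk0 ▸ le_sup_right
        have hk2' : 2 ≤ (A.filter (· ≤ k)).card := hk0 ▸ hcard2 x0.1 x0.2 c0 hc0U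
        have hkq : (0 : ℚ) < ((A.filter (· ≤ k)).card : ℚ) - 1 := by
          have : (2 : ℚ) ≤ (A.filter (· ≤ k)).card := by exact_mod_cast hk2'
          linarith
        have h1 : ∀ x ∈ Finset.univ.filter (fun x : {x // x ∈ R} =>
            k ∈ (W x.1).image (fun c => x.1 ⊔ c)),
            ∑ c ∈ (W x.1).filter (fun c => x.1 ⊔ c = k), max 0 (min (wt x.1 c) (1 - P x.1 c)) ≤
              (1 : ℚ) / ((A.filter (· ≤ k)).card - 1) := by
          intro x hx
          rw [Finset.mem_filter, Finset.mem_image] at hx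
          obtain ⟨-, c, hc, hk⟩ := hx
          have hcU := ((hmW _ _).mp hc).1.1
          have hxk : x.1 ≤ k := hk ▸ le_sup_left
          have hsub : (W x.1).filter (fun c => x.1 ⊔ c = k) ⊆ {c0} := by
            intro d hd
            rw [Finset.mem_filter] at hd
            rw [Finset.mem_singleton]
            exact huniq x.1 x.2 k hk2 hxk d ((hmW _ _).mp hd.1).1.1 c0 hc0U
              (hd.2 ▸ le_sup_right) hc0k
          have hcc0 : c = c0 := huniq x.1 x.2 k hk2 hxk c hcU c0 hc0U (hk ▸ le_sup_right) hc0k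
          refine le_trans (Finset.sum_le_sum_of_subset_of_nonneg hsub
            (fun _ _ _ => le_max_left _ _)) ?_
          rw [Finset.sum_singleton]
          refine max_le (div_nonneg zero_le_one hkq.le) (le_trans (min_le_left _ _) ?_)
          simp only [hwt]
          rw [← hcc0, hk]
        refine le_trans (Finset.sum_le_sum h1) ?_
        rw [Finset.sum_const, nsmul_eq_mul, mul_one_div, div_le_one hkq]
        have h2 : (Finset.univ.filter (fun x : {x // x ∈ R} =>
            k ∈ (W x.1).image (fun c => x.1 ⊔ c))).card ≤ ((A.filter (· ≤ k)).erase c0).card := by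
          rw [← Finset.card_map (Function.Embedding.subtype _)]
          apply Finset.card_le_card
          intro z hz
          rw [Finset.mem_map] at hz
          obtain ⟨x, hx, rfl⟩ := hz
          rw [Finset.mem_filter, Finset.mem_image] at hx
          obtain ⟨-, c, hc, hk⟩ := hx
          rw [Finset.mem_erase, Finset.mem_filter]
          exact ⟨hne x.1 x.2 c0 hc0U, (hR x.1 x.2).1, by
            change x.1 ≤ k
            rw [← hk]
            exact le_sup_left⟩
        have h3 : c0 ∈ A.filter (· ≤ k) := Finset.mem_filter.mpr ⟨hc0'.1, hc0k⟩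
        rw [Finset.card_erase_of_mem h3] at h2
        have h4 : (Finset.univ.filter (fun x : {x // x ∈ R} =>
            k ∈ (W x.1).image (fun c => x.1 ⊔ c))).card + 1 ≤ (A.filter (· ≤ k)).card := by omega
        have h5 : ((Finset.univ.filter (fun x : {x // x ∈ R} =>
            k ∈ (W x.1).image (fun c => x.1 ⊔ c))).card : ℚ) + 1 ≤ (A.filter (· ≤ k)).card := by
          exact_mod_cast h4
        linarith)
    have hex : ∀ x : {x // x ∈ R}, ∃ c ∈ W x.1, x.1 ⊔ c = F x := fun x =>
      Finset.mem_image.mp (hFW x)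
    choose g hgW hgF using hex
    refine ⟨fun x => if h : x ∈ R then g ⟨x, h⟩ else x, ?_, ?_⟩
    · intro x hx
      simp only [hx, dite_true]
      exact hgW ⟨x, hx⟩
    · intro x hx y hy e
      simp only [hx, hy, dite_true] at e
      have h1 : F ⟨x, hx⟩ = F ⟨y, hy⟩ := by
        rw [← hgF ⟨x, hx⟩, ← hgF ⟨y, hy⟩]
        exact e
      exact congrArg Subtype.val (hF h1)
  -- a minimal choice
  have hex2 : ∃ n : ℕ, ∃ cc : L → L, ((∀ x ∈ R, cc x ∈ W x) ∧
      ∀ x ∈ R, ∀ y ∈ R, x ⊔ cc x = y ⊔ cc y → x = y) ∧ ∑ x ∈ R, idx (cc x) = n := by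
    obtain ⟨cc, h1⟩ := hex
    exact ⟨_, cc, h1, rfl⟩
  classical
  obtain ⟨cc, ⟨hccW, hccinj⟩, hccn⟩ := Nat.find_spec hex2
  refine ⟨cc, ?_, hccinj, ?_, ?_⟩
  · intro x hx
    obtain ⟨⟨h1, h2⟩, -⟩ := (hmW x _).mp (hccW x hx)
    exact ⟨((hmU _).mp h1).1, ((hmU _).mp h1).2, h2⟩
  · intro x hx
    obtain ⟨-, h3⟩ := (hmW x _).mp (hccW x hx)
    have h4 : A.filter (fun c => c ≤ u ∧ idx c < idx (cc x) ∧ ¬ r x ≤ x ⊔ c) =
        (T x).filter (fun j => idx j < idx (cc x)) := by
      ext j
      simp only [Finset.mem_filter, hmT, hmU]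
      tauto
    rw [h4]
    exact h3
  · intro x hx c hc hcu hlt hrc
    by_contra hcon
    push Not at hcon
    have hcU : c ∈ U := (hmU c).mpr ⟨hc, hcu⟩
    have hcW : c ∈ W x := (hmW x c).mpr ⟨⟨hcU, hrc⟩,
      lt_of_le_of_lt (hmono x hx c (cc x) hlt.le) ((hmW x _).mp (hccW x hx)).2⟩
    have hkey : ∀ y ∈ R, y ≠ x → x ⊔ c ≠ y ⊔ cc y := by
      intro y hy hyx e
      have h1 : cc y = c := huniq x hx (x ⊔ c) (hrk x hx c hcU) le_sup_left (cc y)
        ((hmW y _).mp (hccW y hy)).1.1 c hcU (by rw [e]; exact le_sup_right) le_sup_right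
      exact hcon y hy h1 (by rw [e]; exact le_sup_left)
    have h2 : Nat.find hex2 ≤ ∑ y ∈ R, idx (Function.update cc x c y) := by
      apply Nat.find_min'
      refine ⟨Function.update cc x c, ⟨?_, ?_⟩, rfl⟩
      · intro y hy
        by_cases hyx : y = x
        · subst hyx
          rw [Function.update_self]
          exact hcW
        · rw [Function.update_of_ne hyx]
          exact hccW y hy
      · intro y hy z hz e
        by_cases hyx : y = x
        · by_cases hzx : z = x
          · rw [hyx, hzx]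
          · subst hyx
            rw [Function.update_self, Function.update_of_ne hzx] at e
            exact absurd e (hkey z hz hzx)
        · by_cases hzx : z = x
          · subst hzx
            rw [Function.update_self, Function.update_of_ne hyx] at e
            exact absurd e.symm (hkey y hy hyx)
          · rw [Function.update_of_ne hyx, Function.update_of_ne hzx] at e
            exact hccinj y hy z hz e
    rw [← hccn] at h2
    have h3 : ∑ y ∈ R, idx (Function.update cc x c y) < ∑ y ∈ R, idx (cc y) := by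
      apply Finset.sum_lt_sum
      · intro y hy
        by_cases hyx : y = x
        · subst hyx
          rw [Function.update_self]
          exact hlt.le
        · rw [Function.update_of_ne hyx]
      · exact ⟨x, hx, by rw [Function.update_self]; exact hlt⟩
    omega

end Pool.Agent.Helper40.Pack
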