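import Pool.Agent.Helper40.Pack.Level2E

/-!
# Level two for all rows without a representative, one forbidden row in planes without
representatives
-/

set_option autoImplicit false
set_option linter.unusedSectionVars false

namespace Pool.Agent.Helper40.Pack

open Pool.Agent.Helper28.BPack Pool.Agent.Helper61.Motz

variable {L : Type} [Lattice L] [BoundedOrder L] [Finite L] [IsUpperModularLattice L]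

/-- LEVEL 2 for all rows `x ⊔ c` without a representative.  `bad k H`: the row `k` is forbidden in
the plane `H`; at most one row of a plane is forbidden, and only in planes without
representatives. -/
theorem level2A {A : Finset L} {u v c r1 r2 : L} {r : L → L} (bad : L → L → Prop)
    (hA : ∀ a ∈ A, IsAtom a) (hrA : rk (A.sup id) = 4) (hu : rk u = 2) (hv : rk v = 2)
    (huv : rk (u ⊔ v) = 4) (hc : c ∈ A) (hcu : c ≤ u)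
    (hr1 : r1 ∈ A) (hr2 : r2 ∈ A) (hr1v : r1 ≤ v) (hr2v : r2 ≤ v) (hr12 : r1 ≠ r2)
    (hr1u : ¬ r1 ≤ u) (hr2u : ¬ r2 ≤ u)
    (hr : ∀ x ∈ A, ¬ x ≤ u → r x ∈ A ∧ ¬ r x ≤ u ∧ r x ≤ x ⊔ u)
    (hrr : ∀ x ∈ A, ¬ x ≤ u → ∀ y ∈ A, ¬ y ≤ u → y ≤ x ⊔ u → r x = r y)
    (hrr1 : r r1 = r1) (hrr2 : r r2 = r2)
    (hbad1 : ∀ H, rk H = 3 → c ≤ H → ¬ u ≤ H → (∀ y ∈ A, ¬ y ≤ u → ¬ r y ≤ H) →
      ∀ x ∈ A, ¬ x ≤ u → x ≤ H → bad (x ⊔ c) H → ∀ y ∈ A, ¬ y ≤ u → y ≤ H → bad (y ⊔ c) H →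
      x ⊔ c = y ⊔ c)
    (hno : ∀ x ∈ A, ¬ x ≤ u → ¬ r x ≤ x ⊔ c → x ≤ c ⊔ v → ∃ H, rk H = 3 ∧ x ⊔ c ≤ H ∧
      ¬ u ≤ H ∧ H ≠ c ⊔ v ∧ (∃ z ∈ A, z ≤ H ∧ ¬ z ≤ x ⊔ c) ∧
      ((∀ y ∈ A, ¬ y ≤ u → ¬ r y ≤ H) → ¬ bad (x ⊔ c) H)) :
    ∃ H : L → L, (∀ x ∈ A, ¬ x ≤ u → ¬ r x ≤ x ⊔ c → rk (H (x ⊔ c)) = 3 ∧ x ⊔ c ≤ H (x ⊔ c) ∧
        ¬ u ≤ H (x ⊔ c) ∧ H (x ⊔ c) ≠ c ⊔ v ∧ (∃ z ∈ A, z ≤ H (x ⊔ c) ∧ ¬ z ≤ x ⊔ c) ∧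
        ((∀ y ∈ A, ¬ y ≤ u → ¬ r y ≤ H (x ⊔ c)) → ¬ bad (x ⊔ c) (H (x ⊔ c)))) ∧
      (∀ x ∈ A, ¬ x ≤ u → ¬ r x ≤ x ⊔ c → ∀ y ∈ A, ¬ y ≤ u → ¬ r y ≤ y ⊔ c →
        H (x ⊔ c) = H (y ⊔ c) → x ⊔ c = y ⊔ c) := by
  classical
  set S : Finset L := A.filter (fun x => ¬ x ≤ u ∧ ¬ r x ≤ x ⊔ c) with hSdef
  have hmS : ∀ x, x ∈ S ↔ x ∈ A ∧ ¬ x ≤ u ∧ ¬ r x ≤ x ⊔ c := fun x => by simp [hSdef]
  have hex : ∀ k, k ∈ S.image (fun x => x ⊔ c) → ∃ x ∈ S, x ⊔ c = k := fun k hk =>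
    Finset.mem_image.mp hk
  choose! q hqS hqk using hex
  set G : Finset L := (S.image (fun x => x ⊔ c)).image q with hGdef
  have hmG : ∀ y, y ∈ G → y ∈ S ∧ q (y ⊔ c) = y := by
    intro y hy
    rw [hGdef, Finset.mem_image] at hy
    obtain ⟨k, hk, rfl⟩ := hy
    exact ⟨hqS k hk, by rw [hqk k hk]⟩
  have hsame : ∀ x ∈ S, ∀ s ∈ A, ¬ s ≤ u → r s = s → x ⊔ u = s ⊔ u → r x = s := by
    intro x hx s hs hsu hss e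
    have hx' := (hmS x).mp hx
    rw [hrr x hx'.1 hx'.2.1 s hs hsu (e ▸ le_sup_left), hss]
  have hxu_of : ∀ x ∈ G, x ∈ A ∧ ¬ x ≤ u := fun x hx =>
    ⟨((hmS x).mp (hmG x hx).1).1, ((hmS x).mp (hmG x hx).1).2.1⟩
  obtain ⟨H, hH, hHinj⟩ := level2E (A := A) (G := G) (r1 := r1)
    (r2 := r2) (r := r) (u := u) (v := v) (c := c)
    (fun x H => rk H = 3 ∧ c ≤ H ∧ ¬ u ≤ H ∧ (∀ y ∈ A, ¬ y ≤ u → ¬ r y ≤ H) ∧ bad (x ⊔ c) H)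
    hA hrA hu hv huv hc hcu hr1 hr2 hr1v hr2v hr12
    (by
      intro x hx
      obtain ⟨h1, h2, h3⟩ := (hmS x).mp (hmG x hx).1
      have h4 := hr x h1 h2
      exact ⟨h1, h2, h4.1, h4.2.1, h4.2.2, h3⟩)
    (by
      intro x hx y hy e
      obtain ⟨h1, h2, -⟩ := (hmS x).mp (hmG x hx).1
      obtain ⟨h1', h2', -⟩ := (hmS y).mp (hmG y hy).1
      exact hrr x h1 h2 y h1' h2' (e ▸ le_sup_left))
    (fun x hx e => hsame x (hmG x hx).1 r1 hr1 hr1u hrr1 e)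
    (fun x hx e => hsame x (hmG x hx).1 r2 hr2 hr2u hrr2 e)
    (by
      intro x hx y hy e
      rw [← (hmG x hx).2, ← (hmG y hy).2, e])
    (by
      rintro H x hx y hy hxH hyH ⟨h1, h2, h3, h4, h5⟩ ⟨-, -, -, -, h5'⟩
      have h6 := hbad1 H h1 h2 h3 h4 x (hxu_of x hx).1 (hxu_of x hx).2 hxH h5 y (hxu_of y hy).1
        (hxu_of y hy).2 hyH h5'
      rw [← (hmG x hx).2, ← (hmG y hy).2, h6])
    (by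
      rintro H x hx hxH ⟨-, -, -, h4, -⟩
      refine ⟨?_, ?_, ?_⟩
      · have h5 := h4 r1 hr1 hr1u
        rwa [hrr1] at h5
      · have h5 := h4 r2 hr2 hr2u
        rwa [hrr2] at h5
      · intro y hy
        exact h4 y (hxu_of y hy).1 (hxu_of y hy).2)
    (by
      intro x hx hle
      obtain ⟨h1, h2, h3⟩ := (hmS x).mp (hmG x hx).1
      obtain ⟨H, k1, k2, k3, k4, k5, k6⟩ := hno x h1 h2 h3 hle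
      exact ⟨H, k1, k2, k3, k4, k5, fun h => k6 h.2.2.2.1 h.2.2.2.2⟩)
  have hq : ∀ x ∈ S, q (x ⊔ c) ∈ G ∧ q (x ⊔ c) ⊔ c = x ⊔ c := by
    intro x hx
    have h1 : x ⊔ c ∈ S.image (fun x => x ⊔ c) := Finset.mem_image_of_mem (fun x => x ⊔ c) hx
    exact ⟨Finset.mem_image_of_mem q h1, hqk _ h1⟩
  refine ⟨fun k => H (q k), ?_, ?_⟩
  · intro x hx hxu hrx
    obtain ⟨h1, h2⟩ := hq x ((hmS x).mpr ⟨hx, hxu, hrx⟩)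
    obtain ⟨k1, k2, k3, k4, k5, k6⟩ := hH _ h1
    rw [h2] at k2 k5 k6
    refine ⟨k1, k2, k3, k4, k5, ?_⟩
    intro h3 h5
    exact k6 ⟨k1, le_sup_right.trans k2, k3, h3, h5⟩
  · intro x hx hxu hrx y hy hyu hry e
    obtain ⟨h1, h2⟩ := hq x ((hmS x).mpr ⟨hx, hxu, hrx⟩)
    obtain ⟨h1', h2'⟩ := hq y ((hmS y).mpr ⟨hy, hyu, hry⟩)
    rw [← h2, ← h2', hHinj _ h1 _ h1' e]

/-- The same, with no forbidden rows in the plane `c ⊔ v`, under the hypothesis of the plain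
version. -/
theorem level2A' {A : Finset L} {u v c r1 r2 : L} {r : L → L} (bad : L → L → Prop)
    (hA : ∀ a ∈ A, IsAtom a) (hrA : rk (A.sup id) = 4) (hu : rk u = 2) (hv : rk v = 2)
    (huv : rk (u ⊔ v) = 4) (hc : c ∈ A) (hcu : c ≤ u)
    (hr1 : r1 ∈ A) (hr2 : r2 ∈ A) (hr1v : r1 ≤ v) (hr2v : r2 ≤ v) (hr12 : r1 ≠ r2)
    (hr1u : ¬ r1 ≤ u) (hr2u : ¬ r2 ≤ u)
    (hr : ∀ x ∈ A, ¬ x ≤ u → r x ∈ A ∧ ¬ r x ≤ u ∧ r x ≤ x ⊔ u)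
    (hrr : ∀ x ∈ A, ¬ x ≤ u → ∀ y ∈ A, ¬ y ≤ u → y ≤ x ⊔ u → r x = r y)
    (hrr1 : r r1 = r1) (hrr2 : r r2 = r2)
    (hbad1 : ∀ H, rk H = 3 → c ≤ H → ¬ u ≤ H → (∀ y ∈ A, ¬ y ≤ u → ¬ r y ≤ H) →
      ∀ x ∈ A, ¬ x ≤ u → x ≤ H → bad (x ⊔ c) H → ∀ y ∈ A, ¬ y ≤ u → y ≤ H → bad (y ⊔ c) H →
      x ⊔ c = y ⊔ c)
    (hno : ∀ x ∈ A, ¬ x ≤ u → ¬ r x ≤ x ⊔ c → x ≤ c ⊔ v → ∃ y ∈ A, ¬ y ≤ x ⊔ u ∧ ¬ y ≤ c ⊔ v) :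
    ∃ H : L → L, (∀ x ∈ A, ¬ x ≤ u → ¬ r x ≤ x ⊔ c → rk (H (x ⊔ c)) = 3 ∧ x ⊔ c ≤ H (x ⊔ c) ∧
        ¬ u ≤ H (x ⊔ c) ∧ H (x ⊔ c) ≠ c ⊔ v ∧ (∃ z ∈ A, z ≤ H (x ⊔ c) ∧ ¬ z ≤ x ⊔ c) ∧
        ((∀ y ∈ A, ¬ y ≤ u → ¬ r y ≤ H (x ⊔ c)) → ¬ x ≤ c ⊔ v →
          ¬ bad (x ⊔ c) (H (x ⊔ c)))) ∧
      (∀ x ∈ A, ¬ x ≤ u → ¬ r x ≤ x ⊔ c → ∀ y ∈ A, ¬ y ≤ u → ¬ r y ≤ y ⊔ c →
        H (x ⊔ c) = H (y ⊔ c) → x ⊔ c = y ⊔ c) := by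
  have hxc : ∀ x, x ≤ c ⊔ v ↔ x ⊔ c ≤ c ⊔ v := fun x =>
    ⟨fun h => sup_le h le_sup_left, fun h => le_sup_left.trans h⟩
  obtain ⟨H, h1, h2⟩ := level2A (A := A) (u := u) (v := v) (c := c) (r1 := r1) (r2 := r2) (r := r)
    (fun k H => ¬ k ≤ c ⊔ v ∧ bad k H) hA hrA hu hv huv hc hcu hr1 hr2 hr1v hr2v hr12 hr1u hr2u hr
    hrr hrr1 hrr2
    (by
      intro H k1 k2 k3 k4 x hx hxu hxH hb y hy hyu hyH hb'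
      exact hbad1 H k1 k2 k3 k4 x hx hxu hxH hb.2 y hy hyu hyH hb'.2)
    (by
      intro x hx hxu hrx hxv
      obtain ⟨y, hy, hyu, hyv⟩ := hno x hx hxu hrx hxv
      have hca := hA c hc
      have hxa := hA x hx
      have hya := hA y hy
      have hxc' : x ≠ c := fun h => hxu (h ▸ hcu)
      have hk : rk (x ⊔ c) = 2 := rk_line hxa hca hxc'
      have hxcu : x ⊔ c ≤ x ⊔ u := sup_le le_sup_left (hcu.trans le_sup_right)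
      have hyk : ¬ y ≤ x ⊔ c := fun h => hyu (h.trans hxcu)
      have hrkH : rk (x ⊔ c ⊔ y) = 3 := by rw [rk_sup_atom hya hyk, hk]
      have hrkP : rk (x ⊔ u) = 3 := by rw [sup_comm, rk_sup_atom hxa hxu, hu]
      refine ⟨x ⊔ c ⊔ y, hrkH, le_sup_left, ?_, ?_, ⟨y, hy, le_sup_right, hyk⟩, ?_⟩
      · intro h
        have e1 : x ⊔ u = x ⊔ c ⊔ y := eq_of_le_of_rk
          (sup_le (le_sup_left.trans le_sup_left) h) (by rw [hrkH, hrkP])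
        exact hyu (e1 ▸ le_sup_right)
      · intro h
        exact hyv (h ▸ le_sup_right)
      · intro _ h
        exact h.1 ((hxc x).mp hxv))
  refine ⟨H, ?_, h2⟩
  intro x hx hxu hrx
  obtain ⟨k1, k2, k3, k4, k5, k6⟩ := h1 x hx hxu hrx
  refine ⟨k1, k2, k3, k4, k5, ?_⟩
  intro h3 h4 h5
  exact k6 h3 ⟨fun h => h4 ((hxc x).mpr h), h5⟩

end Pool.Agent.Helper40.Pack
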