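import Pool.Agent.Helper28.Level2

/-!
# Level two with forbidden pairs

In every plane without a representative one user may be forbidden.
-/

set_option autoImplicit false
set_option linter.unusedSectionVars false

namespace Pool.Agent.Helper40.Pack

open Pool.Agent.Helper28.BPack Pool.Agent.Helper61.Motz Pool.Agent.Helper28.Level2

variable {L : Type} [Lattice L] [BoundedOrder L] [Finite L] [IsUpperModularLattice L]

/-- LEVEL 2 with forbidden pairs `bad x H`: at most one per plane, none in planes which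
contain a representative. -/
theorem level2E {A G : Finset L} {u v c r1 r2 : L} {r : L → L} (bad : L → L → Prop)
    (hA : ∀ a ∈ A, IsAtom a) (hrA : rk (A.sup id) = 4) (hu : rk u = 2) (hv : rk v = 2)
    (huv : rk (u ⊔ v) = 4) (hc : c ∈ A) (hcu : c ≤ u)
    (hr1 : r1 ∈ A) (hr2 : r2 ∈ A) (hr1v : r1 ≤ v) (hr2v : r2 ≤ v) (hr12 : r1 ≠ r2)
    (hG : ∀ x ∈ G, x ∈ A ∧ ¬ x ≤ u ∧ r x ∈ A ∧ ¬ r x ≤ u ∧ r x ≤ x ⊔ u ∧ ¬ r x ≤ x ⊔ c)
    (hcl : ∀ x ∈ G, ∀ y ∈ G, x ⊔ u = y ⊔ u → r x = r y)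
    (hc1 : ∀ x ∈ G, x ⊔ u = r1 ⊔ u → r x = r1) (hc2 : ∀ x ∈ G, x ⊔ u = r2 ⊔ u → r x = r2)
    (hinj : ∀ x ∈ G, ∀ y ∈ G, x ⊔ c = y ⊔ c → x = y)
    (hbad1 : ∀ H, ∀ x ∈ G, ∀ y ∈ G, x ≤ H → y ≤ H → bad x H → bad y H → x = y)
    (hbad2 : ∀ H, ∀ x ∈ G, x ≤ H → bad x H → ¬ r1 ≤ H ∧ ¬ r2 ≤ H ∧ ∀ y ∈ G, ¬ r y ≤ H)
    (hno : ∀ x ∈ G, x ≤ c ⊔ v → ∃ H, rk H = 3 ∧ x ⊔ c ≤ H ∧ ¬ u ≤ H ∧ H ≠ c ⊔ v ∧
      (∃ z ∈ A, z ≤ H ∧ ¬ z ≤ x ⊔ c) ∧ ¬ bad x H) :
    ∃ H : L → L, (∀ x ∈ G, rk (H x) = 3 ∧ x ⊔ c ≤ H x ∧ ¬ u ≤ H x ∧ H x ≠ c ⊔ v ∧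
        (∃ z ∈ A, z ≤ H x ∧ ¬ z ≤ x ⊔ c) ∧ ¬ bad x (H x)) ∧
      (∀ x ∈ G, ∀ y ∈ G, H x = H y → x = y) := by
  classical
  have : Fintype L := Fintype.ofFinite L
  have hca := hA c hc
  have hr1a := hA r1 hr1
  have hr2a := hA r2 hr2
  have hvr : r1 ⊔ r2 = v := line_eq hr1a hr2a hr12 hr1v hr2v hv
  have hr1u : ¬ r1 ≤ u := by
    intro h
    have h1 : u ⊔ v = u ⊔ r2 := by rw [← hvr, ← sup_assoc, sup_eq_left.mpr h]
    have h2 := rk_sup_atom_le (x := u) hr2a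
    rw [← h1, hu] at h2
    omega
  have hcv : ¬ c ≤ v := by
    intro h
    have h4 : c ⊔ r1 = v := line_eq hca hr1a (fun h5 => hr1u (h5 ▸ hcu)) h hr1v hv
    have h5 : u ⊔ v = u ⊔ r1 := by rw [← h4, ← sup_assoc, sup_eq_left.mpr hcu]
    rw [h5, rk_sup_atom hr1a hr1u, hu] at huv
    omega
  have hL0rk : rk (c ⊔ v) = 3 := by rw [sup_comm, rk_sup_atom hca hcv, hv]
  have hL0u : ¬ u ≤ c ⊔ v := by
    intro h
    have h1 : u ⊔ v ≤ c ⊔ v := sup_le h le_sup_right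
    have h2 := rk_mono h1
    rw [huv, hL0rk] at h2
    omega
  -- the admissible planes of `x`
  let P : L → L → Prop := fun x H => rk H = 3 ∧ x ⊔ c ≤ H ∧ ¬ u ≤ H ∧ H ≠ c ⊔ v ∧
    (∃ z ∈ A, z ≤ H ∧ ¬ z ≤ x ⊔ c) ∧ ¬ bad x H
  -- lines through `c`
  have hrow : ∀ x ∈ G, rk (x ⊔ c) = 2 := by
    intro x hx
    rw [sup_comm]
    exact rk_cy hu hca hcu (hA x (hG x hx).1) (hG x hx).2.1
  -- a plane with a representative or a second user is admissible for one of the users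
  have hadm : ∀ (A0 : Finset L), (∀ z ∈ A0, z ∈ A) → ∀ (S : Finset L), S ⊆ G →
      (∀ z ∈ A0, z = c ∨ z = r1 ∨ z = r2 ∨ z ∈ S ∨ ∃ y ∈ G, z = r y) →
      ∀ x ∈ S, ∀ H, rk H = 3 → x ⊔ c ≤ H → ¬ u ≤ H → H ≠ c ⊔ v →
      (∃ z ∈ A0, z ≤ H ∧ ¬ z ≤ x ⊔ c) → ∃ y ∈ S, P y H := by
    intro A0 hA0 S hS hA0S x hx H h1 h2 h3 h4 ⟨z, hz, hzH, hzx⟩
    by_cases hb : bad x H
    · obtain ⟨hb1, hb2, hb3⟩ := hbad2 H x (hS hx) (le_sup_left.trans h2) hb
      rcases hA0S z hz with h5 | h5 | h5 | h5 | ⟨y, hy, h5⟩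
      · exact absurd (h5 ▸ le_sup_right : z ≤ x ⊔ c) hzx
      · exact absurd (h5 ▸ hzH) hb1
      · exact absurd (h5 ▸ hzH) hb2
      · refine ⟨z, h5, h1, sup_le hzH (le_sup_right.trans h2), h3, h4, ?_, ?_⟩
        · refine ⟨x, (hG x (hS hx)).1, le_sup_left.trans h2, ?_⟩
          intro h6
          apply hzx
          have h7 : x ⊔ c = z ⊔ c := eq_of_le_of_rk (sup_le h6 le_sup_right)
            (by rw [hrow x (hS hx), hrow z (hS h5)])
          rw [h7]
          exact le_sup_left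
        · intro h6
          have h7 := hbad1 H x (hS hx) z (hS h5) (le_sup_left.trans h2) hzH hb h6
          exact hzx (h7 ▸ le_sup_left)
      · exact absurd (h5 ▸ hzH) (hb3 y hy)
    · exact ⟨x, hx, h1, h2, h3, h4, ⟨z, hA0 z hz, hzH, hzx⟩, hb⟩
  -- Hall
  obtain ⟨F, hFinj, hF⟩ := (Finset.all_card_le_biUnion_card_iff_exists_injective
    (fun x : G => Finset.univ.filter (fun H => P x.1 H))).mp (by
    intro s
    rcases s.eq_empty_or_nonempty with rfl | hsne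
    · simp
    set S : Finset L := s.map (Function.Embedding.subtype _) with hSd
    have hSG : S ⊆ G := by
      intro x hx
      rw [hSd, Finset.mem_map] at hx
      obtain ⟨y, -, rfl⟩ := hx
      exact y.2
    have hScard : s.card = S.card := by rw [hSd, Finset.card_map]
    have hSs : ∀ x (hx : x ∈ S), (⟨x, hSG hx⟩ : G) ∈ s := by
      intro x hx
      rw [hSd, Finset.mem_map] at hx
      obtain ⟨y, hy, h1⟩ := hx
      have h2 : y = ⟨x, hSG ‹_›⟩ := Subtype.ext h1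
      exact h2 ▸ hy
    have hmem : ∀ x ∈ S, ∀ H, P x H → H ∈ s.biUnion (fun x : G => Finset.univ.filter
        (fun H => P x.1 H)) := by
      intro x hx H hH
      rw [Finset.mem_biUnion]
      exact ⟨⟨x, hSG hx⟩, hSs x hx, by simpa using hH⟩
    rw [hScard]
    set A0 : Finset L := {c, r1, r2} ∪ S ∪ S.image r with hA0d
    have hA0A : ∀ z ∈ A0, z ∈ A := by
      intro z hz
      rw [hA0d] at hz
      simp only [Finset.mem_union, Finset.mem_insert, Finset.mem_singleton,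
        Finset.mem_image] at hz
      rcases hz with ((rfl | rfl | rfl) | h) | ⟨y, hy, rfl⟩
      · exact hc
      · exact hr1
      · exact hr2
      · exact (hG z (hSG h)).1
      · exact (hG y (hSG hy)).2.2.1
    have hA0S : ∀ z ∈ A0, z = c ∨ z = r1 ∨ z = r2 ∨ z ∈ S ∨ ∃ y ∈ G, z = r y := by
      intro z hz
      rw [hA0d] at hz
      simp only [Finset.mem_union, Finset.mem_insert, Finset.mem_singleton,
        Finset.mem_image] at hz
      rcases hz with ((h | h | h) | h) | ⟨y, hy, h⟩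
      · exact Or.inl h
      · exact Or.inr (Or.inl h)
      · exact Or.inr (Or.inr (Or.inl h))
      · exact Or.inr (Or.inr (Or.inr (Or.inl h)))
      · exact Or.inr (Or.inr (Or.inr (Or.inr ⟨y, hSG hy, h.symm⟩)))
    have hcA0 : c ∈ A0 := by simp [hA0d]
    have hr1A0 : r1 ∈ A0 := by simp [hA0d]
    have hr2A0 : r2 ∈ A0 := by simp [hA0d]
    have hSA0 : ∀ x ∈ S, x ∈ A0 := by
      intro x hx
      rw [hA0d]
      simp [hx]
    have hrA0 : ∀ x ∈ S, r x ∈ A0 := by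
      intro x hx
      rw [hA0d]
      simp only [Finset.mem_union, Finset.mem_image]
      exact Or.inr ⟨x, hx, rfl⟩
    have hboth : ∀ x ∈ G, x ≤ c ⊔ v → ¬ r x ≤ c ⊔ v := by
      intro x hx h1 h2
      obtain ⟨h3, h4, h5, h6, h7, h8⟩ := hG x hx
      exact h8 (le_cy hu hca hcu (hA x h3) h4 (hA _ h5) h7 hL0rk le_sup_left hL0u h1 h2)
    have hrk4 : rk (A0.sup id) = 4 := by
      obtain ⟨x0, hx0⟩ := hsne
      have hx1 : x0.1 ∈ S := by
        rw [hSd, Finset.mem_map]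
        exact ⟨x0, hx0, rfl⟩
      have hcv0 : c ⊔ v ≤ A0.sup id := by
        rw [← hvr]
        exact sup_le (Finset.le_sup (f := id) hcA0)
          (sup_le (Finset.le_sup (f := id) hr1A0) (Finset.le_sup (f := id) hr2A0))
      have h2 : ∃ y ∈ A0, ¬ y ≤ c ⊔ v := by
        by_cases h3 : x0.1 ≤ c ⊔ v
        · exact ⟨r x0.1, hrA0 _ hx1, hboth _ (hSG hx1) h3⟩
        · exact ⟨x0.1, hSA0 _ hx1, h3⟩
      obtain ⟨y, hy, hyc⟩ := h2
      have h3 : rk (c ⊔ v ⊔ y) = 4 := by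
        rw [rk_sup_atom (hA y (hA0A y hy)) hyc, hL0rk]
      have h4 : c ⊔ v ⊔ y ≤ A0.sup id := sup_le hcv0 (Finset.le_sup (f := id) hy)
      have h5 := rk_mono h4
      have h6 : A0.sup id ≤ A.sup id := Finset.sup_le fun z hz =>
        Finset.le_sup (f := id) (hA0A z hz)
      have h7 := rk_mono h6
      omega
    by_cases hnoA : ∀ x ∈ S, x ≤ c ⊔ v → ∃ y ∈ A0, ¬ y ≤ x ⊔ u ∧ ¬ y ≤ c ⊔ v
    · obtain ⟨K, hK1, hK2⟩ := level2 (A := A0) (G := S) (u := u) (v := v) (c := c) (r1 := r1)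
        (r2 := r2) (r := r) (fun a ha => hA a (hA0A a ha)) hrk4 hu hv huv hcA0 hcu hr1A0 hr2A0
        hr1v hr2v hr12
        (fun x hx => ⟨hSA0 x hx, (hG x (hSG hx)).2.1, hrA0 x hx, (hG x (hSG hx)).2.2.2.1,
          (hG x (hSG hx)).2.2.2.2.1, (hG x (hSG hx)).2.2.2.2.2⟩)
        (fun x hx y hy => hcl x (hSG hx) y (hSG hy)) (fun x hx => hc1 x (hSG hx))
        (fun x hx => hc2 x (hSG hx)) (fun x hx y hy => hinj x (hSG hx) y (hSG hy)) hnoA
      have h1 : S.image K ⊆ s.biUnion (fun x : G => Finset.univ.filter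
          (fun H => P x.1 H)) := by
        intro H hH
        rw [Finset.mem_image] at hH
        obtain ⟨x, hx, rfl⟩ := hH
        obtain ⟨h2, h3, h4, h5, h6⟩ := hK1 x hx
        obtain ⟨y, hy, h7⟩ := hadm A0 hA0A S hSG hA0S x hx (K x) h2 h3 h4 h5 h6
        exact hmem y hy (K x) h7
      calc S.card = (S.image K).card := (Finset.card_image_of_injOn
            (fun x hx y hy h => hK2 x hx y hy h)).symm
        _ ≤ _ := Finset.card_le_card h1
    · push Not at hnoA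
      obtain ⟨x0, hx0, hx0v, hx0n⟩ := hnoA
      set S' : Finset L := S.erase x0 with hS'
      have hS'S : ∀ x ∈ S', x ∈ S := fun x hx => Finset.mem_of_mem_erase hx
      have hx0G := hG x0 (hSG hx0)
      have hx0a := hA x0 hx0G.1
      have hPuniq : ∀ x ∈ G, x ≤ x0 ⊔ u → x ≤ c ⊔ v → x = x0 := by
        intro x hx h1 h2
        apply hinj x hx x0 (hSG hx0)
        have h3 := le_cy hu hca hcu hx0a hx0G.2.1 (hA x (hG x hx).1) h1 hL0rk le_sup_left hL0u
          hx0v h2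
        exact eq_of_le_of_rk (sup_le h3 le_sup_right) (by rw [hrow x hx, hrow x0 (hSG hx0)])
      obtain ⟨K, hK1, hK2⟩ := level2 (A := A0) (G := S') (u := u) (v := v) (c := c) (r1 := r1)
        (r2 := r2) (r := r) (fun a ha => hA a (hA0A a ha)) hrk4 hu hv huv hcA0 hcu hr1A0 hr2A0
        hr1v hr2v hr12
        (fun x hx => ⟨hSA0 x (hS'S x hx), (hG x (hSG (hS'S x hx))).2.1, hrA0 x (hS'S x hx),
          (hG x (hSG (hS'S x hx))).2.2.2.1,
          (hG x (hSG (hS'S x hx))).2.2.2.2.1, (hG x (hSG (hS'S x hx))).2.2.2.2.2⟩)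
        (fun x hx y hy => hcl x (hSG (hS'S x hx)) y (hSG (hS'S y hy)))
        (fun x hx => hc1 x (hSG (hS'S x hx)))
        (fun x hx => hc2 x (hSG (hS'S x hx)))
        (fun x hx y hy => hinj x (hSG (hS'S x hx)) y (hSG (hS'S y hy)))
        (by
          intro x hx hxv
          refine ⟨r x0, hrA0 x0 hx0, ?_, hboth x0 (hSG hx0) hx0v⟩
          intro h1
          have hxG := hG x (hSG (hS'S x hx))
          have h2 : r x0 ⊔ u = x ⊔ u := eq_of_le_of_rk (sup_le h1 le_sup_right)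
            (by rw [rk_uy hu (hA _ hx0G.2.2.1) hx0G.2.2.2.1, rk_uy hu (hA x hxG.1) hxG.2.1])
          have h3 : r x0 ⊔ u = x0 ⊔ u := eq_of_le_of_rk (sup_le hx0G.2.2.2.2.1 le_sup_right)
            (by rw [rk_uy hu (hA _ hx0G.2.2.1) hx0G.2.2.2.1, rk_uy hu hx0a hx0G.2.1])
          have h4 : x ≤ x0 ⊔ u := by rw [← h3, h2]; exact le_sup_left
          exact (Finset.ne_of_mem_erase hx) (hPuniq x (hSG (hS'S x hx)) h4 hxv))
      obtain ⟨H0, hH0⟩ := hno x0 (hSG hx0) hx0v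
      have hH0n : H0 ∉ S'.image K := by
        intro h1
        rw [Finset.mem_image] at h1
        obtain ⟨x, hx, h2⟩ := h1
        obtain ⟨h3, h4, h5, h6, -⟩ := hK1 x hx
        obtain ⟨k1, k2, k3, k4, -, -⟩ := hH0
        have hxS := hS'S x hx
        have hx0H : x0 ≤ K x := by rw [h2]; exact le_sup_left.trans k2
        have hxH : x ≤ K x := le_sup_left.trans h4
        have hcH : c ≤ K x := le_sup_right.trans h4
        by_cases h7 : x ≤ x0 ⊔ u
        · have h8 := le_cy hu hca hcu hx0a hx0G.2.1 (hA x (hG x (hSG hxS)).1) h7 h3 hcH h5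
            hx0H hxH
          have h9 : x = x0 := hinj x (hSG hxS) x0 (hSG hx0)
            (eq_of_le_of_rk (sup_le h8 le_sup_right)
              (by rw [hrow x (hSG hxS), hrow x0 (hSG hx0)]))
          exact (Finset.ne_of_mem_erase hx) h9
        · have h8 : x ≤ c ⊔ v := hx0n x (hSA0 x hxS) h7
          have h9 := eq_cyx hu hca hcu hx0a hx0G.2.1 (hA x (hG x (hSG hxS)).1) h7 h3 hcH hx0H hxH
          have h10 := eq_cyx hu hca hcu hx0a hx0G.2.1 (hA x (hG x (hSG hxS)).1) h7 hL0rk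
            le_sup_left hx0v h8
          exact h6 (h9.trans h10.symm)
      have h1 : insert H0 (S'.image K) ⊆ s.biUnion (fun x : G => Finset.univ.filter
          (fun H => P x.1 H)) := by
        intro H hH
        rw [Finset.mem_insert, Finset.mem_image] at hH
        rcases hH with rfl | ⟨x, hx, rfl⟩
        · exact hmem x0 hx0 _ hH0
        · obtain ⟨h2, h3, h4, h5, h6⟩ := hK1 x hx
          obtain ⟨y, hy, h7⟩ := hadm A0 hA0A S hSG hA0S x (hS'S x hx) (K x) h2 h3 h4 h5 h6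
          exact hmem y hy (K x) h7
      calc S.card = S'.card + 1 := (Finset.card_erase_add_one hx0).symm
        _ = (S'.image K).card + 1 := by
          rw [Finset.card_image_of_injOn (fun x hx y hy h => hK2 x hx y hy h)]
        _ = (insert H0 (S'.image K)).card := (Finset.card_insert_of_notMem hH0n).symm
        _ ≤ _ := Finset.card_le_card h1)
  refine ⟨fun x => if hx : x ∈ G then F ⟨x, hx⟩ else x, ?_, ?_⟩
  · intro x hx
    have h1 := hF ⟨x, hx⟩
    simp only [Finset.mem_filter, Finset.mem_univ, true_and] at h1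
    simp only [hx, dite_true]
    exact h1
  · intro x hx y hy hxy
    simp only [hx, hy, dite_true] at hxy
    exact congrArg Subtype.val (hFinj hxy)

end Pool.Agent.Helper40.Pack
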