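import Pool.Agent.Helper28.Level2

/-!
# Level two with an arbitrary set of zero rows

`K` is the excluded plane, all its rows are zero.  Groups are the planes over `u`.
-/

set_option autoImplicit false
set_option linter.unusedSectionVars false

namespace Pool.Agent.Helper40.Pack

open Pool.Agent.Helper28.BPack Pool.Agent.Helper61.Motz Pool.Agent.Helper28.Level2

/-- Hall's theorem from a kernel condition, with an incidence relation `I` independent of the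
allowed pairs `T`. -/
theorem hall_of_kernel2 {X Y : Type} [Fintype X] [DecidableEq X] [DecidableEq Y]
    (T : X → Finset Y) (I : X → Y → Prop) [∀ x y, Decidable (I x y)]
    (h : ∀ (s : Finset X) (f : X → ℚ),
      (∀ y ∈ s.biUnion T, (∑ x ∈ s, if I x y then f x else 0) = 0) → ∀ x ∈ s, f x = 0) :
    ∃ F : X → Y, Function.Injective F ∧ ∀ x, F x ∈ T x := by
  classical
  apply (Finset.all_card_le_biUnion_card_iff_exists_injective T).mp
  intro s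
  by_contra hcon
  push Not at hcon
  let φ : (↥s → ℚ) →ₗ[ℚ] (↥(s.biUnion T) → ℚ) :=
    { toFun := fun g y => ∑ x : s, if I x.1 y.1 then g x else 0
      map_add' := by
        intro g g'
        funext y
        simp only [Pi.add_apply]
        rw [← Finset.sum_add_distrib]
        apply Finset.sum_congr rfl
        intro x _
        split_ifs <;> simp
      map_smul' := by
        intro a g
        funext y
        simp only [Pi.smul_apply, smul_eq_mul, RingHom.id_apply]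
        rw [Finset.mul_sum]
        apply Finset.sum_congr rfl
        intro x _
        split_ifs <;> simp }
  have h1 : LinearMap.ker φ ≠ ⊥ := by
    apply LinearMap.ker_ne_bot_of_finrank_lt
    rw [Module.finrank_pi, Module.finrank_pi, Fintype.card_coe, Fintype.card_coe]
    exact hcon
  obtain ⟨g, hg, hg0⟩ := (Submodule.ne_bot_iff _).mp h1
  apply hg0
  have h2 := h s (fun x => if hx : x ∈ s then g ⟨x, hx⟩ else 0) ?_
  · funext x
    have h3 := h2 x.1 x.2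
    simp only [x.2, dite_true] at h3
    exact h3
  · intro y hy
    have e2 : (∑ x ∈ s, if I x y then (if hx : x ∈ s then g ⟨x, hx⟩ else 0) else 0) =
        ∑ x : s, if I x.1 y then g x else 0 := by
      rw [← Finset.sum_coe_sort s]
      apply Finset.sum_congr rfl
      intro x _
      simp [x.2]
    rw [e2]
    exact congrFun (LinearMap.mem_ker.mp hg) ⟨y, hy⟩

variable {L : Type} [Lattice L] [BoundedOrder L] [Finite L] [IsUpperModularLattice L]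

/-- `H` is admissible for the row of `x`. -/
def Adm (A : Finset L) (u K c : L) (Z : L → Prop) (bad : L → L → Prop) (x H : L) : Prop :=
  rk H = 3 ∧ x ⊔ c ≤ H ∧ ¬ u ≤ H ∧ H ≠ K ∧ (∃ z ∈ A, z ≤ H ∧ ¬ z ≤ x ⊔ c) ∧
    ((∀ y ∈ A, ¬ y ≤ u → y ≤ H → ¬ Z y) → ¬ bad (x ⊔ c) H)

/-- No row is forbidden in `H`. -/
def Safe (A : Finset L) (u c : L) (Z : L → Prop) (bad : L → L → Prop) (H : L) : Prop :=
  (∃ y ∈ A, ¬ y ≤ u ∧ y ≤ H ∧ Z y) ∨ ∀ x ∈ A, ¬ x ≤ u → x ≤ H → ¬ bad (x ⊔ c) H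

/-- The group of `x` has no zero row. -/
def Naked (A : Finset L) (u : L) (Z : L → Prop) (x : L) : Prop :=
  ∀ z ∈ A, ¬ z ≤ u → z ≤ x ⊔ u → ¬ Z z

/-- The rows of the group of `p` see safe planes which miss the group of `q`. -/
def GoodPair (A : Finset L) (u K c : L) (Z : L → Prop) (bad : L → L → Prop) (p q : L) : Prop :=
  (∀ x ∈ A, ¬ x ≤ u → x ≤ p ⊔ u → ∃ H, rk H = 3 ∧ x ⊔ c ≤ H ∧ ¬ u ≤ H ∧ H ≠ K ∧
    (∃ z ∈ A, z ≤ H ∧ ¬ z ≤ x ⊔ c) ∧ Safe A u c Z bad H ∧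
    ∀ y ∈ A, ¬ y ≤ u → y ≤ q ⊔ u → ¬ y ≤ H) ∨
  (∃ x ∈ A, ¬ x ≤ u ∧ x ≤ p ⊔ u ∧
    (∀ H, rk H = 3 → x ⊔ c ≤ H → ¬ u ≤ H → Safe A u c Z bad H) ∧
    ∃ H, rk H = 3 ∧ x ⊔ c ≤ H ∧ ¬ u ≤ H ∧ H ≠ K ∧ (∃ z ∈ A, z ≤ H ∧ ¬ z ≤ x ⊔ c) ∧
    ∀ y ∈ A, ¬ y ≤ u → y ≤ q ⊔ u → ¬ y ≤ H)

/-- The frame of level two for the colour `c`. -/
structure KD (A : Finset L) (u K c z1 z2 : L) (Z : L → Prop) (bad : L → L → Prop) : Prop where
  hA : ∀ a ∈ A, IsAtom a
  hu : rk u = 2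
  hc : c ∈ A
  hcu : c ≤ u
  hZrow : ∀ x ∈ A, ¬ x ≤ u → ∀ y ∈ A, ¬ y ≤ u → x ⊔ c = y ⊔ c → Z x → Z y
  hZK : ∀ x ∈ A, ¬ x ≤ u → x ≤ K → Z x
  hz1 : z1 ∈ A
  hz2 : z2 ∈ A
  hz1u : ¬ z1 ≤ u
  hz2u : ¬ z2 ≤ u
  hZ1 : Z z1
  hZ2 : Z z2
  hz12 : ¬ z2 ≤ z1 ⊔ u
  hbad1 : ∀ H, rk H = 3 → c ≤ H → ¬ u ≤ H → (∀ y ∈ A, ¬ y ≤ u → y ≤ H → ¬ Z y) →
    ∀ x ∈ A, ¬ x ≤ u → x ≤ H → bad (x ⊔ c) H → ∀ y ∈ A, ¬ y ≤ u → y ≤ H → bad (y ⊔ c) H →
    x ⊔ c = y ⊔ c

section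

variable {A : Finset L} {u K c z1 z2 : L} {Z : L → Prop} {bad : L → L → Prop}

namespace KD

theorem grp_symm (D : KD A u K c z1 z2 Z bad) {x y : L} (hx : x ∈ A) (hxu : ¬ x ≤ u) (hy : y ∈ A)
    (hyu : ¬ y ≤ u) (h : y ≤ x ⊔ u) : y ⊔ u = x ⊔ u :=
  eq_of_le_of_rk (sup_le h le_sup_right)
    (by rw [rk_uy D.hu (D.hA x hx) hxu, rk_uy D.hu (D.hA y hy) hyu])

theorem row_eq (D : KD A u K c z1 z2 Z bad) {x y : L} (hx : x ∈ A) (hxu : ¬ x ≤ u) (hy : y ∈ A)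
    (hyu : ¬ y ≤ u) (h : y ≤ x ⊔ c) : y ⊔ c = x ⊔ c :=
  eq_of_le_of_rk (sup_le h le_sup_right)
    (by
      rw [sup_comm x, sup_comm y, rk_cy D.hu (D.hA c D.hc) D.hcu (D.hA x hx) hxu,
        rk_cy D.hu (D.hA c D.hc) D.hcu (D.hA y hy) hyu])

/-- The plane `c x y`. -/
theorem plane (D : KD A u K c z1 z2 Z bad) {x y : L} (hx : x ∈ A) (hxu : ¬ x ≤ u) (hy : y ∈ A)
    (h : ¬ y ≤ x ⊔ u) : rk (c ⊔ x ⊔ y) = 3 ∧ ¬ u ≤ c ⊔ x ⊔ y :=
  rk_cyx D.hu (D.hA c D.hc) D.hcu (D.hA x hx) hxu (D.hA y hy) h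

theorem off (D : KD A u K c z1 z2 Z bad) {x y : L} (hxu : ¬ x ≤ u) (h : ¬ y ≤ x ⊔ u) :
    ¬ y ≤ u ∧ ¬ y ≤ x ⊔ c :=
  ⟨fun h' => h (h'.trans le_sup_right), fun h' => h (h'.trans (sup_le_sup_left D.hcu x))⟩

theorem off_symm (D : KD A u K c z1 z2 Z bad) {x y : L} (hx : x ∈ A) (hxu : ¬ x ≤ u)
    (hy : y ∈ A) (h : ¬ y ≤ x ⊔ u) : ¬ x ≤ y ⊔ u := by
  intro h'
  have h1 := D.grp_symm hy (D.off hxu h).1 hx hxu h'
  exact h (by rw [h1]; exact le_sup_left)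

/-- A plane `c x y` with `y` nonzero is admissible for `y` if it is safe. -/
theorem adm_of_safe (D : KD A u K c z1 z2 Z bad) {x y : L} (hx : x ∈ A) (hxu : ¬ x ≤ u)
    (hy : y ∈ A) (hyZ : ¬ Z y) (h : ¬ y ≤ x ⊔ u) (hs : Safe A u c Z bad (c ⊔ x ⊔ y)) :
    Adm A u K c Z bad y (c ⊔ x ⊔ y) := by
  obtain ⟨h1, h2⟩ := D.plane hx hxu hy h
  have hyu := (D.off hxu h).1
  refine ⟨h1, sup_le le_sup_right (le_sup_left.trans le_sup_left), h2, ?_,
    ⟨x, hx, le_sup_right.trans le_sup_left, ?_⟩, ?_⟩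
  · intro e
    exact hyZ (D.hZK y hy hyu (e ▸ le_sup_right))
  · exact (D.off hyu (D.off_symm hx hxu hy h)).2
  · intro h3
    rcases hs with ⟨z, hz, hzu, hzH, hzZ⟩ | h4
    · exact absurd hzZ (h3 z hz hzu hzH)
    · exact h4 y hy hyu le_sup_right

end KD

open Classical in
/-- The kernel. -/
theorem kernelK (D : KD A u K c z1 z2 Z bad) (S : Finset L) (f : L → ℚ)
    (hS : ∀ x ∈ S, x ∈ A ∧ ¬ x ≤ u ∧ ¬ Z x)
    (hinj : ∀ x ∈ S, ∀ y ∈ S, x ⊔ c = y ⊔ c → x = y)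
    (hNC : ∀ p ∈ A, ¬ p ≤ u → Naked A u Z p → ∀ q ∈ A, ¬ q ≤ u → Naked A u Z q → ¬ q ≤ p ⊔ u →
      GoodPair A u K c Z bad p q ∨ GoodPair A u K c Z bad q p)
    (hF : ∀ H, (∃ x ∈ S, Adm A u K c Z bad x H) → ∑ x ∈ S.filter (· ≤ H), f x = 0) :
    ∀ x ∈ S, f x = 0 := by
  have hca := D.hA c D.hc
  -- neighbours
  set nb : L → Finset L := fun x => S.filter (fun y => ¬ y ≤ x ⊔ u) with hnb
  set HH : L → Finset L := fun x => (nb x).image (fun y => c ⊔ x ⊔ y) with hHH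
  have hmnb : ∀ x y, y ∈ nb x ↔ y ∈ S ∧ ¬ y ≤ x ⊔ u := fun x y => by simp [hnb]
  have hmHH : ∀ x H, H ∈ HH x ↔ ∃ y ∈ S, ¬ y ≤ x ⊔ u ∧ c ⊔ x ⊔ y = H := by
    intro x H
    simp only [hHH, Finset.mem_image, hmnb]
    constructor
    · rintro ⟨y, ⟨h1, h2⟩, h3⟩
      exact ⟨y, h1, h2, h3⟩
    · rintro ⟨y, h1, h2, h3⟩
      exact ⟨y, ⟨h1, h2⟩, h3⟩
  -- a point of `S` in a plane through `x`
  have hin : ∀ x ∈ A, ¬ x ≤ u → ∀ H, rk H = 3 → x ⊔ c ≤ H → ¬ u ≤ H → ∀ y ∈ S, y ≤ H →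
      (y ≤ x ⊔ u → y ⊔ c = x ⊔ c) ∧ (¬ y ≤ x ⊔ u → c ⊔ x ⊔ y = H) := by
    intro x hx hxu H hH hxH huH y hy hyH
    obtain ⟨hyA, hyu, -⟩ := hS y hy
    constructor
    · intro h
      exact D.row_eq hx hxu hyA hyu (le_cy D.hu hca D.hcu (D.hA x hx) hxu (D.hA y hyA) h hH
        (le_sup_right.trans hxH) huH (le_sup_left.trans hxH) hyH)
    · intro h
      exact (eq_cyx D.hu hca D.hcu (D.hA x hx) hxu (D.hA y hyA) h hH
        (le_sup_right.trans hxH) (le_sup_left.trans hxH) hyH).symm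
  -- fibres
  have hfib : ∀ x, ∑ y ∈ nb x, f y =
      ∑ H ∈ HH x, ∑ y ∈ (nb x).filter (fun y => c ⊔ x ⊔ y = H), f y := by
    intro x
    exact (Finset.sum_fiberwise_of_maps_to
      (fun y hy => Finset.mem_image_of_mem (fun y => c ⊔ x ⊔ y) hy) _).symm
  -- no point of `S` on the row of `x`
  have hA0 : ∀ x ∈ A, ¬ x ≤ u → (∀ y ∈ S, y ⊔ c ≠ x ⊔ c) →
      (∀ y ∈ S, ¬ y ≤ x ⊔ u → Safe A u c Z bad (c ⊔ x ⊔ y)) → ∑ y ∈ nb x, f y = 0 := by
    intro x hx hxu hrow hsafe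
    rw [hfib]
    apply Finset.sum_eq_zero
    intro H hH
    obtain ⟨y0, hy0, hy0x, rfl⟩ := (hmHH x H).mp hH
    obtain ⟨hy0A, hy0u, hy0Z⟩ := hS y0 hy0
    obtain ⟨k1, k2⟩ := D.plane hx hxu hy0A hy0x
    have h1 := hF (c ⊔ x ⊔ y0) ⟨y0, hy0, D.adm_of_safe hx hxu hy0A hy0Z hy0x (hsafe y0 hy0 hy0x)⟩
    rw [← h1]
    apply Finset.sum_congr _ (fun _ _ => rfl)
    ext y
    simp only [Finset.mem_filter, hmnb]
    constructor
    · rintro ⟨⟨hy, -⟩, e⟩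
      exact ⟨hy, e ▸ le_sup_right⟩
    · rintro ⟨hy, hyH⟩
      have h2 := hin x hx hxu (c ⊔ x ⊔ y0) k1
        (sup_le (le_sup_right.trans le_sup_left) (le_sup_left.trans le_sup_left)) k2 y hy hyH
      have h3 : ¬ y ≤ x ⊔ u := fun h => hrow y hy (h2.1 h)
      exact ⟨⟨hy, h3⟩, h2.2 h3⟩
  -- zero rows
  have hAz : ∀ z ∈ A, ¬ z ≤ u → Z z → ∑ y ∈ nb z, f y = 0 := by
    intro z hz hzu hZ
    apply hA0 z hz hzu
    · intro y hy e
      obtain ⟨hyA, hyu, hyZ⟩ := hS y hy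
      exact hyZ (D.hZrow z hz hzu y hyA hyu e.symm hZ)
    · intro y hy _
      exact Or.inl ⟨z, hz, hzu, le_sup_right.trans le_sup_left, hZ⟩
  -- rows of `S`
  have hB : ∀ x ∈ S, ∑ y ∈ nb x, f y = - ((HH x).card : ℚ) * f x := by
    intro x hxS
    obtain ⟨hx, hxu, hxZ⟩ := hS x hxS
    rw [hfib]
    have h1 : ∀ H ∈ HH x, ∑ y ∈ (nb x).filter (fun y => c ⊔ x ⊔ y = H), f y = - f x := by
      intro H hH
      obtain ⟨y0, hy0, hy0x, rfl⟩ := (hmHH x H).mp hH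
      obtain ⟨hy0A, hy0u, hy0Z⟩ := hS y0 hy0
      obtain ⟨k1, k2⟩ := D.plane hx hxu hy0A hy0x
      have kx : x ⊔ c ≤ c ⊔ x ⊔ y0 :=
        sup_le (le_sup_right.trans le_sup_left) (le_sup_left.trans le_sup_left)
      have hK : c ⊔ x ⊔ y0 ≠ K := by
        intro e
        exact hxZ (D.hZK x hx hxu (by rw [← e]; exact le_sup_right.trans le_sup_left))
      have hadm : ∃ y ∈ S, Adm A u K c Z bad y (c ⊔ x ⊔ y0) := by
        by_cases hb : (∀ y ∈ A, ¬ y ≤ u → y ≤ c ⊔ x ⊔ y0 → ¬ Z y) ∧ bad (x ⊔ c) (c ⊔ x ⊔ y0)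
        · refine ⟨y0, hy0, k1, sup_le le_sup_right (le_sup_left.trans le_sup_left), k2, hK,
            ⟨x, hx, le_sup_right.trans le_sup_left,
              (D.off hy0u (D.off_symm hx hxu hy0A hy0x)).2⟩, ?_⟩
          intro _ hb'
          have h2 := D.hbad1 _ k1 (le_sup_left.trans le_sup_left) k2 hb.1 x hx hxu
            (le_sup_right.trans le_sup_left) hb.2 y0 hy0A hy0u le_sup_right hb'
          exact (D.off hxu hy0x).2 (by rw [h2]; exact le_sup_left)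
        · refine ⟨x, hxS, k1, kx, k2, hK, ⟨y0, hy0A, le_sup_right, (D.off hxu hy0x).2⟩, ?_⟩
          intro h2 h3
          exact hb ⟨h2, h3⟩
      have h3 := hF _ hadm
      have h4 : S.filter (· ≤ c ⊔ x ⊔ y0) =
          insert x ((nb x).filter (fun y => c ⊔ x ⊔ y = c ⊔ x ⊔ y0)) := by
        ext y
        simp only [Finset.mem_insert, Finset.mem_filter, hmnb]
        constructor
        · rintro ⟨hy, hyH⟩
          have h5 := hin x hx hxu (c ⊔ x ⊔ y0) k1 kx k2 y hy hyH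
          by_cases hyx : y ≤ x ⊔ u
          · exact Or.inl (hinj y hy x hxS (h5.1 hyx))
          · exact Or.inr ⟨⟨hy, hyx⟩, h5.2 hyx⟩
        · rintro (rfl | ⟨⟨hy, -⟩, e⟩)
          · exact ⟨hxS, le_sup_right.trans le_sup_left⟩
          · exact ⟨hy, e ▸ le_sup_right⟩
      rw [h4, Finset.sum_insert] at h3
      · linarith
      · intro h5
        rw [Finset.mem_filter, hmnb] at h5
        exact h5.1.2 le_sup_left
    rw [Finset.sum_congr rfl h1, Finset.sum_const, nsmul_eq_mul]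
    ring
  -- alone in an admissible plane
  have hD : ∀ x ∈ S, ∀ H, Adm A u K c Z bad x H → f x = 0 ∨ H ∈ HH x := by
    intro x hxS H hadm
    obtain ⟨hx, hxu, hxZ⟩ := hS x hxS
    have h1 := hF H ⟨x, hxS, hadm⟩
    obtain ⟨k1, k2, k3, k4, k5, k6⟩ := hadm
    by_cases h : ∃ y ∈ S, y ≤ H ∧ ¬ y ≤ x ⊔ u
    · obtain ⟨y, hy, hyH, hyx⟩ := h
      exact Or.inr ((hmHH x H).mpr ⟨y, hy, hyx, (hin x hx hxu H k1 k2 k3 y hy hyH).2 hyx⟩)
    · push Not at h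
      left
      have h2 : S.filter (· ≤ H) = {x} := by
        ext y
        rw [Finset.mem_filter, Finset.mem_singleton]
        constructor
        · rintro ⟨hy, hyH⟩
          exact hinj y hy x hxS ((hin x hx hxu H k1 k2 k3 y hy hyH).1 (h y hy hyH))
        · rintro rfl
          exact ⟨hxS, le_sup_left.trans k2⟩
      rw [h2, Finset.sum_singleton] at h1
      exact h1
  have hD0 : ∀ x ∈ S, (HH x).card = 0 → f x = 0 := by
    intro x hxS h0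
    obtain ⟨hx, hxu, hxZ⟩ := hS x hxS
    have hz : ∃ z ∈ A, ¬ z ≤ x ⊔ u ∧ Z z := by
      by_cases h1 : z1 ≤ x ⊔ u
      · refine ⟨z2, D.hz2, ?_, D.hZ2⟩
        intro h2
        have e1 := D.grp_symm hx hxu D.hz1 D.hz1u h1
        exact D.hz12 (by rw [e1]; exact h2)
      · exact ⟨z1, D.hz1, h1, D.hZ1⟩
    obtain ⟨z, hz, hzx, hzZ⟩ := hz
    obtain ⟨k1, k2⟩ := D.plane hx hxu hz hzx
    have hadm : Adm A u K c Z bad x (c ⊔ x ⊔ z) := by
      refine ⟨k1, sup_le (le_sup_right.trans le_sup_left) (le_sup_left.trans le_sup_left), k2, ?_,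
        ⟨z, hz, le_sup_right, (D.off hxu hzx).2⟩, ?_⟩
      · intro e
        exact hxZ (D.hZK x hx hxu (by rw [← e]; exact le_sup_right.trans le_sup_left))
      · intro h3
        exact absurd hzZ (h3 z hz (D.off hxu hzx).1 le_sup_right)
    rcases hD x hxS _ hadm with h1 | h1
    · exact h1
    · rw [Finset.card_eq_zero] at h0
      rw [h0] at h1
      exact absurd h1 (Finset.notMem_empty _)
  -- totals
  set tot : ℚ := ∑ x ∈ S, f x with htot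
  set grp : L → ℚ := fun p => ∑ x ∈ S.filter (· ≤ p ⊔ u), f x with hgrp
  have hsplit : ∀ p, grp p + ∑ y ∈ nb p, f y = tot := fun p =>
    Finset.sum_filter_add_sum_filter_not S (· ≤ p ⊔ u) f
  have hgrp_eq : ∀ p q, p ⊔ u = q ⊔ u → grp p = grp q := by
    intro p q e
    simp only [hgrp, e]
  have hgrpS : ∀ x ∈ S, grp x = tot + (HH x).card * f x := by
    intro x hx
    have h1 := hsplit x
    rw [hB x hx] at h1
    linarith
  have hzero : ∀ x ∈ S, ¬ Naked A u Z x → f x = 0 := by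
    intro x hxS hn
    obtain ⟨hx, hxu, -⟩ := hS x hxS
    unfold Naked at hn
    push Not at hn
    obtain ⟨z, hz, hzu, hzx, hzZ⟩ := hn
    have e1 := D.grp_symm hx hxu hz hzu hzx
    have h1 := hsplit z
    rw [hAz z hz hzu hzZ, add_zero, hgrp_eq z x e1, hgrpS x hxS] at h1
    have h2 : ((HH x).card : ℚ) * f x = 0 := by linarith
    rcases mul_eq_zero.mp h2 with h3 | h3
    · exact hD0 x hxS (by exact_mod_cast h3)
    · exact h3
  have htot0 : tot = 0 := by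
    have h1 := hsplit z1
    rw [hAz z1 D.hz1 D.hz1u D.hZ1, add_zero] at h1
    rw [← h1]
    apply Finset.sum_eq_zero
    intro x hx
    rw [Finset.mem_filter] at hx
    obtain ⟨hxA, hxu, -⟩ := hS x hx.1
    apply hzero x hx.1
    intro hn
    have e1 := D.grp_symm D.hz1 D.hz1u hxA hxu hx.2
    exact hn z1 D.hz1 D.hz1u (by rw [e1]; exact le_sup_left) D.hZ1
  have hgrpS' : ∀ x ∈ S, grp x = (HH x).card * f x := by
    intro x hx
    rw [hgrpS x hx, htot0, zero_add]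
  have hfne : ∀ x ∈ S, grp x ≠ 0 → f x ≠ 0 ∧ (HH x).card ≠ 0 := by
    intro x hx h
    rw [hgrpS' x hx] at h
    refine ⟨right_ne_zero_of_mul h, ?_⟩
    have := left_ne_zero_of_mul h
    exact_mod_cast this
  have hnaked : ∀ x ∈ S, grp x ≠ 0 → Naked A u Z x := by
    intro x hxS h
    by_contra hn
    exact (hfne x hxS h).1 (hzero x hxS hn)
  -- two groups
  have hcard : ∀ x0 ∈ S, ∀ x1 ∈ S, ¬ x1 ≤ x0 ⊔ u → grp x0 ≠ 0 →
      (S.filter (· ≤ x1 ⊔ u)).card ≤ (S.filter (· ≤ x0 ⊔ u)).card ∧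
      ((S.filter (· ≤ x1 ⊔ u)).card = (S.filter (· ≤ x0 ⊔ u)).card →
        ∀ x ∈ S, x ≤ x0 ⊔ u → ∀ H ∈ HH x, ∃ y ∈ S, y ≤ x1 ⊔ u ∧ y ≤ H) := by
    intro x0 hx0 x1 hx1 h10 hg0
    obtain ⟨hx0A, hx0u, -⟩ := hS x0 hx0
    obtain ⟨hx1A, hx1u, -⟩ := hS x1 hx1
    have hsame : ∀ x ∈ S, x ≤ x0 ⊔ u → x ⊔ u = x0 ⊔ u := by
      intro x hx hxx
      exact D.grp_symm hx0A hx0u (hS x hx).1 (hS x hx).2.1 hxx
    -- the image of the other group
    have himg : ∀ x ∈ S, x ≤ x0 ⊔ u →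
        (S.filter (· ≤ x1 ⊔ u)).image (fun y => c ⊔ x ⊔ y) ⊆ HH x ∧
        ((S.filter (· ≤ x1 ⊔ u)).image (fun y => c ⊔ x ⊔ y)).card =
          (S.filter (· ≤ x1 ⊔ u)).card := by
      intro x hx hxx
      obtain ⟨hxA, hxu, -⟩ := hS x hx
      have exu := hsame x hx hxx
      have hoff : ∀ y ∈ S, y ≤ x1 ⊔ u → ¬ y ≤ x ⊔ u := by
        intro y hy hyx h
        obtain ⟨hyA, hyu, -⟩ := hS y hy
        have e1 := D.grp_symm hx1A hx1u hyA hyu hyx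
        have e2 := D.grp_symm hxA hxu hyA hyu h
        exact h10 (by rw [← exu, ← e2, e1]; exact le_sup_left)
      constructor
      · intro H hH
        rw [Finset.mem_image] at hH
        obtain ⟨y, hy, rfl⟩ := hH
        rw [Finset.mem_filter] at hy
        exact (hmHH x _).mpr ⟨y, hy.1, hoff y hy.1 hy.2, rfl⟩
      · apply Finset.card_image_of_injOn
        intro y hy y' hy' e
        rw [Finset.mem_coe, Finset.mem_filter] at hy hy'
        change c ⊔ x ⊔ y = c ⊔ x ⊔ y' at e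
        obtain ⟨hyA, hyu, -⟩ := hS y hy.1
        obtain ⟨hyA', hyu', -⟩ := hS y' hy'.1
        have e1 := D.grp_symm hx1A hx1u hyA hyu hy.2
        obtain ⟨k1, k2⟩ := D.plane hxA hxu hyA (hoff y hy.1 hy.2)
        have h3 := (hin y hyA hyu (c ⊔ x ⊔ y) k1
          (sup_le le_sup_right (le_sup_left.trans le_sup_left)) k2 y' hy'.1
          (by rw [e]; exact le_sup_right)).1 (by rw [e1]; exact hy'.2)
        exact (hinj y' hy'.1 y hy.1 h3).symm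
    have hge : ∀ x ∈ S, x ≤ x0 ⊔ u → (S.filter (· ≤ x1 ⊔ u)).card ≤ (HH x).card := by
      intro x hx hxx
      rw [← (himg x hx hxx).2]
      exact Finset.card_le_card (himg x hx hxx).1
    have hm1 : 0 < (S.filter (· ≤ x1 ⊔ u)).card :=
      Finset.card_pos.mpr ⟨x1, Finset.mem_filter.mpr ⟨hx1, le_sup_left⟩⟩
    have hm1q : (0 : ℚ) < (S.filter (· ≤ x1 ⊔ u)).card := by exact_mod_cast hm1
    have hsum1 : ∑ x ∈ S.filter (· ≤ x0 ⊔ u), (1 : ℚ) / (HH x).card = 1 := by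
      have h1 : ∀ x ∈ S.filter (· ≤ x0 ⊔ u), f x = grp x0 * (1 / (HH x).card) := by
        intro x hx
        rw [Finset.mem_filter] at hx
        have h2 := hgrpS' x hx.1
        have e1 : grp x = grp x0 := hgrp_eq _ _ (hsame x hx.1 hx.2)
        have h3 : ((HH x).card : ℚ) ≠ 0 := by
          have := (hfne x hx.1 (by rw [e1]; exact hg0)).2
          exact_mod_cast this
        rw [← e1, h2]
        field_simp
      have h2 : grp x0 = ∑ x ∈ S.filter (· ≤ x0 ⊔ u), grp x0 * (1 / (HH x).card) :=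
        Finset.sum_congr rfl h1
      rw [← Finset.mul_sum] at h2
      have h3 : grp x0 * (∑ x ∈ S.filter (· ≤ x0 ⊔ u), (1 : ℚ) / (HH x).card - 1) = 0 := by
        linarith
      rcases mul_eq_zero.mp h3 with h4 | h4
      · exact absurd h4 hg0
      · linarith
    have hle1 : ∀ x ∈ S.filter (· ≤ x0 ⊔ u),
        (1 : ℚ) / (HH x).card ≤ 1 / (S.filter (· ≤ x1 ⊔ u)).card := by
      intro x hx
      rw [Finset.mem_filter] at hx
      apply one_div_le_one_div_of_le hm1q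
      exact_mod_cast hge x hx.1 hx.2
    have hle2 := Finset.sum_le_sum hle1
    rw [hsum1, Finset.sum_const, nsmul_eq_mul, mul_one_div, le_div_iff₀ hm1q, one_mul] at hle2
    refine ⟨by exact_mod_cast hle2, ?_⟩
    intro heq x hx hxx H hH
    -- all planes are used
    have hcx : (HH x).card = (S.filter (· ≤ x1 ⊔ u)).card := by
      by_contra hne
      have hlt : (S.filter (· ≤ x1 ⊔ u)).card < (HH x).card :=
        lt_of_le_of_ne (hge x hx hxx) (Ne.symm hne)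
      have h5 : ∑ x ∈ S.filter (· ≤ x0 ⊔ u), (1 : ℚ) / (HH x).card <
          ∑ x ∈ S.filter (· ≤ x0 ⊔ u), (1 : ℚ) / (S.filter (· ≤ x1 ⊔ u)).card := by
        apply Finset.sum_lt_sum hle1
        refine ⟨x, Finset.mem_filter.mpr ⟨hx, hxx⟩, ?_⟩
        apply one_div_lt_one_div_of_lt hm1q
        exact_mod_cast hlt
      rw [hsum1, Finset.sum_const, nsmul_eq_mul, mul_one_div, ← heq,
        div_self hm1q.ne'] at h5
      exact lt_irrefl _ h5
    have himg' : (S.filter (· ≤ x1 ⊔ u)).image (fun y => c ⊔ x ⊔ y) = HH x :=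
      Finset.eq_of_subset_of_card_le (himg x hx hxx).1 (by rw [(himg x hx hxx).2, hcx])
    rw [← himg', Finset.mem_image] at hH
    obtain ⟨y, hy, rfl⟩ := hH
    rw [Finset.mem_filter] at hy
    exact ⟨y, hy.1, hy.2, le_sup_right⟩
  -- a good pair excludes two groups
  have hgood : ∀ x0 ∈ S, ∀ x1 ∈ S, ¬ x1 ≤ x0 ⊔ u → grp x0 ≠ 0 →
      (∀ x ∈ S, x ≤ x0 ⊔ u → ∀ H ∈ HH x, ∃ y ∈ S, y ≤ x1 ⊔ u ∧ y ≤ H) →
      ¬ GoodPair A u K c Z bad x0 x1 := by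
    intro x0 hx0 x1 hx1 h10 hg0 hall hgp
    obtain ⟨hx0A, hx0u, -⟩ := hS x0 hx0
    have hmiss : ∀ x ∈ S, x ≤ x0 ⊔ u → ∀ H, Adm A u K c Z bad x H →
        (∀ y ∈ A, ¬ y ≤ u → y ≤ x1 ⊔ u → ¬ y ≤ H) → False := by
      intro x hx hxx H hadm hm
      have e1 : grp x = grp x0 :=
        hgrp_eq _ _ (D.grp_symm hx0A hx0u (hS x hx).1 (hS x hx).2.1 hxx)
      rcases hD x hx H hadm with h1 | h1
      · exact (hfne x hx (by rw [e1]; exact hg0)).1 h1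
      · obtain ⟨y, hy, hy1, hyH⟩ := hall x hx hxx H h1
        exact hm y (hS y hy).1 (hS y hy).2.1 hy1 hyH
    have hadm_of : ∀ x ∈ A, ¬ x ≤ u → ∀ H, rk H = 3 → x ⊔ c ≤ H → ¬ u ≤ H → H ≠ K →
        (∃ z ∈ A, z ≤ H ∧ ¬ z ≤ x ⊔ c) → Safe A u c Z bad H → Adm A u K c Z bad x H := by
      intro x hx hxu H k1 k2 k3 k4 k5 k6
      refine ⟨k1, k2, k3, k4, k5, ?_⟩
      intro h3
      rcases k6 with ⟨z, hz, hzu, hzH, hzZ⟩ | h4
      · exact absurd hzZ (h3 z hz hzu hzH)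
      · exact h4 x hx hxu (le_sup_left.trans k2)
    rcases hgp with h | ⟨x, hx, hxu, hxx, hsafe, H, k1, k2, k3, k4, k5, k7⟩
    · obtain ⟨H, k1, k2, k3, k4, k5, k6, k7⟩ := h x0 hx0A hx0u le_sup_left
      exact hmiss x0 hx0 le_sup_left H (hadm_of x0 hx0A hx0u H k1 k2 k3 k4 k5 k6) k7
    · by_cases hex : ∃ x' ∈ S, x' ⊔ c = x ⊔ c
      · obtain ⟨x', hx', e⟩ := hex
        obtain ⟨hxA', hxu', -⟩ := hS x' hx'
        have hx'x : x' ≤ x0 ⊔ u := by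
          have h1 : x' ≤ x ⊔ c := by rw [← e]; exact le_sup_left
          exact h1.trans (sup_le hxx (D.hcu.trans le_sup_right))
        rw [← e] at k2 k5
        exact hmiss x' hx' hx'x H (hadm_of x' hxA' hxu' H k1 k2 k3 k4 k5
          (hsafe H k1 (by rw [← e]; exact k2) k3)) k7
      · push Not at hex
        have h1 := hA0 x hx hxu hex (by
          intro y hy hyx
          obtain ⟨q1, q2⟩ := D.plane hx hxu (hS y hy).1 hyx
          exact hsafe _ q1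
            (sup_le (le_sup_right.trans le_sup_left) (le_sup_left.trans le_sup_left)) q2)
        have h2 := hsplit x
        rw [h1, add_zero, htot0, hgrp_eq x x0 (D.grp_symm hx0A hx0u hx hxu hxx)] at h2
        exact hg0 h2
  -- conclusion
  intro x0 hx0
  by_contra hf0
  obtain ⟨hx0A, hx0u, -⟩ := hS x0 hx0
  have hg0 : grp x0 ≠ 0 := by
    rw [hgrpS' x0 hx0]
    apply mul_ne_zero _ hf0
    intro h
    exact hf0 (hD0 x0 hx0 (by exact_mod_cast h))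
  have hex : ∃ x1 ∈ S, ¬ x1 ≤ x0 ⊔ u ∧ grp x1 ≠ 0 := by
    by_contra hcon
    push Not at hcon
    have h1 : ∑ y ∈ nb x0, f y = 0 := by
      apply Finset.sum_eq_zero
      intro y hy
      rw [hmnb] at hy
      have h2 := hcon y hy.1 hy.2
      rw [hgrpS' y hy.1] at h2
      rcases mul_eq_zero.mp h2 with h3 | h3
      · exact hD0 y hy.1 (by exact_mod_cast h3)
      · exact h3
    have h2 := hsplit x0
    rw [h1, add_zero, htot0] at h2
    exact hg0 h2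
  obtain ⟨x1, hx1, h10, hg1⟩ := hex
  obtain ⟨hx1A, hx1u, -⟩ := hS x1 hx1
  have h01 : ¬ x0 ≤ x1 ⊔ u := D.off_symm hx0A hx0u hx1A h10
  obtain ⟨c1, c2⟩ := hcard x0 hx0 x1 hx1 h10 hg0
  obtain ⟨c3, c4⟩ := hcard x1 hx1 x0 hx0 h01 hg1
  have heq := le_antisymm c1 c3
  rcases hNC x0 hx0A hx0u (hnaked x0 hx0 hg0) x1 hx1A hx1u (hnaked x1 hx1 hg1) h10 with h | h
  · exact hgood x0 hx0 x1 hx1 h10 hg0 (c2 heq) h
  · exact hgood x1 hx1 x0 hx0 h01 hg1 (c4 heq.symm) h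

/-- **LEVEL 2** with an arbitrary set of zero rows, for all other rows. -/
theorem level2K (D : KD A u K c z1 z2 Z bad)
    (hNC : ∀ p ∈ A, ¬ p ≤ u → Naked A u Z p → ∀ q ∈ A, ¬ q ≤ u → Naked A u Z q → ¬ q ≤ p ⊔ u →
      GoodPair A u K c Z bad p q ∨ GoodPair A u K c Z bad q p) :
    ∃ H : L → L, (∀ x ∈ A, ¬ x ≤ u → ¬ Z x → rk (H (x ⊔ c)) = 3 ∧ x ⊔ c ≤ H (x ⊔ c) ∧
        ¬ u ≤ H (x ⊔ c) ∧ H (x ⊔ c) ≠ K ∧ (∃ z ∈ A, z ≤ H (x ⊔ c) ∧ ¬ z ≤ x ⊔ c) ∧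
        ((∀ y ∈ A, ¬ y ≤ u → y ≤ H (x ⊔ c) → ¬ Z y) → ¬ bad (x ⊔ c) (H (x ⊔ c)))) ∧
      (∀ x ∈ A, ¬ x ≤ u → ¬ Z x → ∀ y ∈ A, ¬ y ≤ u → ¬ Z y →
        H (x ⊔ c) = H (y ⊔ c) → x ⊔ c = y ⊔ c) := by
  classical
  have : Fintype L := Fintype.ofFinite L
  set S : Finset L := A.filter (fun x => ¬ x ≤ u ∧ ¬ Z x) with hSdef
  have hmS : ∀ x, x ∈ S ↔ x ∈ A ∧ ¬ x ≤ u ∧ ¬ Z x := fun x => by simp [hSdef]
  have hex : ∀ k, k ∈ S.image (fun x => x ⊔ c) → ∃ x ∈ S, x ⊔ c = k := fun k hk =>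
    Finset.mem_image.mp hk
  choose! q hqS hqk using hex
  set G : Finset L := (S.image (fun x => x ⊔ c)).image q with hGdef
  have hmG : ∀ y, y ∈ G → y ∈ S ∧ q (y ⊔ c) = y := by
    intro y hy
    rw [hGdef, Finset.mem_image] at hy
    obtain ⟨k, hk, rfl⟩ := hy
    exact ⟨hqS k hk, by rw [hqk k hk]⟩
  obtain ⟨F, hFinj, hF⟩ := hall_of_kernel2 (X := {x // x ∈ G}) (Y := L)
    (fun x => Finset.univ.filter (fun H => Adm A u K c Z bad x.1 H)) (fun x H => x.1 ≤ H)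
    (by
      intro s f hs x hx
      set f' : L → ℚ := fun y => if h : y ∈ G then f ⟨y, h⟩ else 0 with hf'
      have h1 := kernelK D (s.map (Function.Embedding.subtype _)) f'
        (by
          intro y hy
          rw [Finset.mem_map] at hy
          obtain ⟨y, -, rfl⟩ := hy
          exact (hmS _).mp (hmG _ y.2).1)
        (by
          intro y hy z hz e
          rw [Finset.mem_map] at hy hz
          obtain ⟨y, -, rfl⟩ := hy
          obtain ⟨z, -, rfl⟩ := hz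
          change y.1 ⊔ c = z.1 ⊔ c at e
          change y.1 = z.1
          rw [← (hmG _ y.2).2, ← (hmG _ z.2).2, e])
        hNC
        (by
          rintro H ⟨y, hy, hadm⟩
          rw [Finset.mem_map] at hy
          obtain ⟨y, hy, rfl⟩ := hy
          have h2 := hs H (Finset.mem_biUnion.mpr ⟨y, hy, Finset.mem_filter.mpr
            ⟨Finset.mem_univ _, hadm⟩⟩)
          rw [← h2, Finset.sum_filter, Finset.sum_map]
          apply Finset.sum_congr rfl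
          intro z _
          simp only [Function.Embedding.subtype_apply, hf', z.2, dite_true])
        x.1 (Finset.mem_map.mpr ⟨x, hx, rfl⟩)
      simp only [hf', x.2, dite_true] at h1
      exact h1)
  set H : L → L := fun y => if h : y ∈ G then F ⟨y, h⟩ else y with hHdef
  have hHG : ∀ y (h : y ∈ G), H y = F ⟨y, h⟩ := fun y h => by simp only [hHdef, h, dite_true]
  have hq : ∀ x ∈ S, q (x ⊔ c) ∈ G ∧ q (x ⊔ c) ⊔ c = x ⊔ c := by
    intro x hx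
    have h1 : x ⊔ c ∈ S.image (fun x => x ⊔ c) := Finset.mem_image_of_mem (fun x => x ⊔ c) hx
    exact ⟨Finset.mem_image_of_mem q h1, hqk _ h1⟩
  refine ⟨fun k => H (q k), ?_, ?_⟩
  · intro x hx hxu hxZ
    obtain ⟨h1, h2⟩ := hq x ((hmS x).mpr ⟨hx, hxu, hxZ⟩)
    have h3 := (Finset.mem_filter.mp (hF ⟨_, h1⟩)).2
    unfold Adm at h3
    rw [← hHG _ h1] at h3
    change rk (H (q (x ⊔ c))) = 3 ∧ q (x ⊔ c) ⊔ c ≤ H (q (x ⊔ c)) ∧ _ at h3
    rw [h2] at h3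
    exact h3
  · intro x hx hxu hxZ y hy hyu hyZ e
    obtain ⟨h1, h2⟩ := hq x ((hmS x).mpr ⟨hx, hxu, hxZ⟩)
    obtain ⟨h1', h2'⟩ := hq y ((hmS y).mpr ⟨hy, hyu, hyZ⟩)
    change H (q (x ⊔ c)) = H (q (y ⊔ c)) at e
    rw [hHG _ h1, hHG _ h1'] at e
    have h3 := congrArg Subtype.val (hFinj e)
    change q (x ⊔ c) = q (y ⊔ c) at h3
    rw [← h2, ← h2', h3]

end

end Pool.Agent.Helper40.Pack
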