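import Pool.Agent.Helper40.Pack.FrameU
import Pool.Agent.Rain64

/-!
# Rank four data for sets with a long line
-/

set_option autoImplicit false
set_option linter.unusedSectionVars false

namespace Pool.Agent.Helper40.Pack

open Pool.Agent.Helper28.BPack Pool.Agent.Helper61.Motz Pool.Agent.Helper38.Thick

variable {L : Type} [Lattice L] [BoundedOrder L] [Finite L] [IsUpperModularLattice L]

/-- A sum with at most one nonzero term. -/
theorem sum_le_of_unique {α : Type} [Fintype α] (f : α → ℝ) {B : ℝ} (hB : 0 ≤ B)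
    (hf : ∀ y, f y ≤ B) (hu : ∀ y y', f y ≠ 0 → f y' ≠ 0 → y = y') : ∑ y, f y ≤ B := by
  classical
  by_cases h : ∃ y, f y ≠ 0
  · obtain ⟨y, hy⟩ := h
    rw [Finset.sum_eq_single y]
    · exact hf y
    · intro y' _ hne
      by_contra h0
      exact hne (hu y' y h0 hy)
    · intro h0
      exact absurd (Finset.mem_univ y) h0
  · push Not at h
    rw [Finset.sum_congr rfl fun y _ => h y, Finset.sum_const_zero]
    exact hB

/-- The set `A` has a long line: for some `m`, every line meeting `u` has at most `(m-1)/m` times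
the size of `u`, and in every plane which meets `u` in one point `c` every other point is on at
least `m + 1` lines. -/
def Long [DecidableEq L] [DecidableRel (α := L) (· ≤ ·)] (A : Finset L) : Prop :=
  ∃ (u : L) (m : ℕ), rk u = 2 ∧ 2 ≤ (A.filter (· ≤ u)).card ∧ 1 ≤ m ∧
    (∀ k, rk k = 2 → k ≠ u → (∃ c ∈ A, c ≤ u ∧ c ≤ k) →
      m * (A.filter (· ≤ k)).card + (A.filter (· ≤ u)).card ≤ m * (A.filter (· ≤ u)).card) ∧
    (∀ H, rk H = 3 → ¬ u ≤ H → ∀ c ∈ A, c ≤ u → c ≤ H → ∀ x ∈ A, x ≤ H → x ≠ c →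
      (∃ z ∈ A, z ≤ H ∧ ¬ z ≤ x ⊔ c) → m ≤ (pen A x (x ⊔ c) H).card)

/-- **Rank four data for a set with a long line.** -/
theorem crit4_of_long [DecidableEq L] [DecidableRel (α := L) (· ≤ ·)] {A : Finset L}
    (hA : ∀ a ∈ A, IsAtom a) (hrA : rk (A.sup id) = 4) (hcore : Core A) (hP : Long A) :
    Crit4 A := by
  classical
  obtain ⟨u, m, hu, hU, hm, hlong, hdeg⟩ := hP
  have : Fintype L := Fintype.ofFinite L
  obtain ⟨b1, b2, r1, r2, r, hb1, hb2, hb12, hbu, hr1, hr2, h4, hr, hrr, hrr1, hrr2,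
    hrv, hno⟩ := frame_of_line hA hrA hcore hu (by omega)
  set v := r1 ⊔ r2 with hvdef
  have hr2u' : ¬ r2 ≤ u ⊔ r1 := by
    intro h
    have h1 := rk_sup_atom_le (x := u) (hA r1 hr1)
    rw [sup_eq_left.mpr h] at h4
    omega
  have hr12 : r1 ≠ r2 := fun h => hr2u' (h ▸ le_sup_right)
  have hv : rk v = 2 := rk_line (hA r1 hr1) (hA r2 hr2) hr12
  have huv : rk (u ⊔ v) = 4 := by rw [hvdef, ← sup_assoc]; exact h4
  have hr1u : ¬ r1 ≤ u := by
    intro h
    have h1 := rk_sup_atom_le (x := u) (hA r2 hr2)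
    rw [sup_eq_left.mpr h] at h4
    omega
  have hr2u : ¬ r2 ≤ u := fun h => hr2u' (h.trans le_sup_left)
  set R : Finset L := A.filter (fun x => ¬ x ≤ u ∧ r x ≠ x) with hRdef
  have hmR : ∀ x, x ∈ R ↔ x ∈ A ∧ ¬ x ≤ u ∧ r x ≠ x := fun x => by simp [hRdef]
  set U := A.filter (· ≤ u) with hUdef
  have hmU : ∀ c, c ∈ U ↔ c ∈ A ∧ c ≤ u := fun c => by simp [hUdef]
  have hne : ∀ x, ¬ x ≤ u → ∀ c ∈ U, x ≠ c := by
    rintro x hx c hc rfl
    exact hx ((hmU x).mp hc).2
  have hrk : ∀ x ∈ A, ¬ x ≤ u → ∀ c ∈ U, rk (x ⊔ c) = 2 := fun x hx hxu c hc =>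
    rk_line (hA x hx) (hA c ((hmU c).mp hc).1) (hne x hxu c hc)
  -- a line not equal to `u` has at most one point of `u`
  have huniq : ∀ x, ¬ x ≤ u → ∀ k, rk k = 2 → x ≤ k → ∀ c ∈ U, ∀ c' ∈ U, c ≤ k → c' ≤ k →
      c = c' := by
    intro x hx k hk hxk c hc c' hc' hck hck'
    by_contra hcc
    have hcU := (hmU c).mp hc
    have hcU' := (hmU c').mp hc'
    have h1 := line_two (hA c hcU.1) (hA c' hcU'.1) hcc hck hck' hk hcU.2 hcU'.2 hu
    exact hx (h1 ▸ hxk)
  -- level 2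
  have hl2 : ∀ c ∈ U, ∃ H : L → L, (∀ x ∈ A, ¬ x ≤ u → ¬ r x ≤ x ⊔ c → rk (H (x ⊔ c)) = 3 ∧
        x ⊔ c ≤ H (x ⊔ c) ∧ ¬ u ≤ H (x ⊔ c) ∧ H (x ⊔ c) ≠ c ⊔ v ∧
        ∃ z ∈ A, z ≤ H (x ⊔ c) ∧ ¬ z ≤ x ⊔ c) ∧
      (∀ x ∈ A, ¬ x ≤ u → ¬ r x ≤ x ⊔ c → ∀ y ∈ A, ¬ y ≤ u → ¬ r y ≤ y ⊔ c →
        H (x ⊔ c) = H (y ⊔ c) → x ⊔ c = y ⊔ c) := by
    intro c hc
    have hc' := (hmU c).mp hc
    exact level2All hA hrA hu hv huv hc'.1 hc'.2 hr1 hr2 le_sup_left le_sup_right hr12 hr1u hr2u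
      hr hrr hrr1 hrr2 (fun x hx hxu hrx hle => hno c hc'.1 hc'.2 x hx hxu hrx hle)
  choose! HH hHH hHHinj using hl2
  -- allowed triples
  let V := {x // x ∈ R} × L × L
  let ok : V → Prop := fun t => t.2.1 ∈ U ∧ ¬ r t.1.1 ≤ t.1.1 ⊔ t.2.1 ∧
    t.2.2 ∈ pen A t.1.1 (t.1.1 ⊔ t.2.1) (HH t.2.1 (t.1.1 ⊔ t.2.1))
  set s : ℝ := (U.card : ℝ) - 1 with hs
  have hs0 : 0 < s := by
    have : (2 : ℝ) ≤ U.card := by exact_mod_cast hU
    rw [hs]
    linarith
  let w : V → ℝ := fun t => ((pen A t.1.1 (t.1.1 ⊔ t.2.1) (HH t.2.1 (t.1.1 ⊔ t.2.1))).card : ℝ)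
  let β : V → ℝ := fun t => if ok t then 1 / (s * w t) else 0
  have hβ0 : ∀ t, 0 ≤ β t := by
    intro t
    simp only [β]
    split_ifs
    · positivity
    · exact le_rfl
  have hok : ∀ t, β t ≠ 0 → ok t := by
    intro t ht
    by_contra h
    exact ht (if_neg h)
  -- facts on allowed triples
  have hfact : ∀ t : V, ok t → rk t.2.2 = 2 ∧ t.1.1 ≤ t.2.2 ∧ ¬ t.2.1 ≤ t.2.2 ∧
      t.2.2 ⊔ t.2.1 = HH t.2.1 (t.1.1 ⊔ t.2.1) := by
    rintro ⟨x, c, g⟩ ⟨hc, hrx, hg⟩
    change c ∈ U at hc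
    change ¬ r x.1 ≤ x.1 ⊔ c at hrx
    change g ∈ pen A x.1 (x.1 ⊔ c) (HH c (x.1 ⊔ c)) at hg
    obtain ⟨z, hz, hzH, hzk, hzg⟩ := mem_pen.mp hg
    obtain ⟨hxA, hxu, hxr⟩ := (hmR x.1).mp x.2
    obtain ⟨k1, k2, k3, k4, k5⟩ := hHH c hc x.1 hxA hxu hrx
    have hxz : x.1 ≠ z := fun h => hzk (h ▸ le_sup_left)
    have h2 : rk g = 2 := by rw [← hzg]; exact rk_line (hA _ hxA) (hA z hz) hxz
    have hxc : x.1 ≠ c := hne x.1 hxu c hc
    have hcA := hA c ((hmU c).mp hc).1
    have hn : ¬ c ≤ g := by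
      intro h
      have h3 : x.1 ⊔ c = g := line_of (hA _ hxA) hcA hxc (by rw [← hzg]; exact le_sup_left) h h2
      exact hzk (by rw [h3, ← hzg]; exact le_sup_right)
    have hle : g ≤ HH c (x.1 ⊔ c) := by rw [← hzg]; exact sup_le (le_sup_left.trans k2) hzH
    refine ⟨h2, by rw [← hzg]; exact le_sup_left, hn, ?_⟩
    exact eq_of_le_of_rk (sup_le hle (le_sup_right.trans k2))
      (by
        have e : rk (g ⊔ c) = 3 := by rw [rk_sup_atom hcA hn, h2]
        change rk (HH c (x.1 ⊔ c)) ≤ rk (g ⊔ c)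
        rw [e, k1])
  have hw : ∀ t : V, ok t → (m : ℝ) ≤ w t := by
    rintro ⟨x, c, g⟩ ⟨hc, hrx, hg⟩
    change c ∈ U at hc
    change ¬ r x.1 ≤ x.1 ⊔ c at hrx
    obtain ⟨hxA, hxu, hxr⟩ := (hmR x.1).mp x.2
    obtain ⟨k1, k2, k3, k4, k5⟩ := hHH c hc x.1 hxA hxu hrx
    have h1 := hdeg (HH c (x.1 ⊔ c)) k1 k3 c ((hmU c).mp hc).1 ((hmU c).mp hc).2
      (le_sup_right.trans k2) x.1 hxA (le_sup_left.trans k2) (hne x.1 hxu c hc) k5
    change (m : ℝ) ≤ ((pen A x.1 (x.1 ⊔ c) (HH c (x.1 ⊔ c))).card : ℝ)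
    exact_mod_cast h1
  have hm0 : (0 : ℝ) < m := by exact_mod_cast hm
  have hβle : ∀ t, β t ≤ 1 / (s * m) := by
    intro t
    simp only [β]
    split_ifs with h
    · apply one_div_le_one_div_of_le (by positivity)
      exact mul_le_mul_of_nonneg_left (hw t h) hs0.le
    · positivity
  -- the sum over the lines of one node
  have hnode : ∀ (x : {x // x ∈ R}) (c : L), ∑ g : L, β (x, c, g) ≤ 1 / s := by
    intro x c
    by_cases h : c ∈ U ∧ ¬ r x.1 ≤ x.1 ⊔ c
    · have e1 : ∀ g, β (x, c, g) = if g ∈ pen A x.1 (x.1 ⊔ c) (HH c (x.1 ⊔ c)) then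
          1 / (s * ((pen A x.1 (x.1 ⊔ c) (HH c (x.1 ⊔ c))).card : ℝ)) else 0 := by
        intro g
        simp only [β, ok, w]
        by_cases hg : g ∈ pen A x.1 (x.1 ⊔ c) (HH c (x.1 ⊔ c))
        · rw [if_pos ⟨h.1, h.2, hg⟩, if_pos hg]
        · rw [if_neg (fun h' => hg h'.2.2), if_neg hg]
      rw [Finset.sum_congr rfl fun g _ => e1 g, ← Finset.sum_filter, Finset.sum_const,
        Finset.filter_mem_eq_inter, Finset.univ_inter, nsmul_eq_mul]
      rcases Nat.eq_zero_or_pos (pen A x.1 (x.1 ⊔ c) (HH c (x.1 ⊔ c))).card with h0 | h0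
      · rw [h0]
        simp only [Nat.cast_zero, zero_mul]
        positivity
      · have h0' : (0 : ℝ) < (pen A x.1 (x.1 ⊔ c) (HH c (x.1 ⊔ c))).card := by exact_mod_cast h0
        rw [mul_one_div, div_le_div_iff₀ (by positivity) hs0]
        linarith [mul_comm s ((pen A x.1 (x.1 ⊔ c) (HH c (x.1 ⊔ c))).card : ℝ)]
    · have e1 : ∀ g, β (x, c, g) = 0 := fun g => if_neg (fun h' => h ⟨h'.1, h'.2.1⟩)
      rw [Finset.sum_congr rfl fun g _ => e1 g, Finset.sum_const_zero]
      positivity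
  have hnode' : ∀ (x : {x // x ∈ R}) (c : L), c ∈ U → ¬ r x.1 ≤ x.1 ⊔ c →
      1 / s ≤ ∑ g : L, β (x, c, g) := by
    intro x c hc hrx
    have e1 : ∀ g, β (x, c, g) = if g ∈ pen A x.1 (x.1 ⊔ c) (HH c (x.1 ⊔ c)) then
        1 / (s * ((pen A x.1 (x.1 ⊔ c) (HH c (x.1 ⊔ c))).card : ℝ)) else 0 := by
      intro g
      simp only [β, ok, w]
      by_cases hg : g ∈ pen A x.1 (x.1 ⊔ c) (HH c (x.1 ⊔ c))
      · rw [if_pos ⟨hc, hrx, hg⟩, if_pos hg]
      · rw [if_neg (fun h' => hg h'.2.2), if_neg hg]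
    rw [Finset.sum_congr rfl fun g _ => e1 g, ← Finset.sum_filter, Finset.sum_const,
      Finset.filter_mem_eq_inter, Finset.univ_inter, nsmul_eq_mul]
    obtain ⟨hxA, hxu, hxr⟩ := (hmR x.1).mp x.2
    obtain ⟨k1, k2, k3, k4, z, hz, hzH, hzk⟩ := hHH c hc x.1 hxA hxu hrx
    have h0 : 0 < (pen A x.1 (x.1 ⊔ c) (HH c (x.1 ⊔ c))).card :=
      Finset.card_pos.mpr ⟨x.1 ⊔ z, mem_pen.mpr ⟨z, hz, hzH, hzk, rfl⟩⟩
    have h0' : (0 : ℝ) < (pen A x.1 (x.1 ⊔ c) (HH c (x.1 ⊔ c))).card := by exact_mod_cast h0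
    rw [mul_one_div, div_le_div_iff₀ hs0 (by positivity)]
    linarith [mul_comm s ((pen A x.1 (x.1 ⊔ c) (HH c (x.1 ⊔ c))).card : ℝ)]
  -- the number of colours
  have hTcard : ∀ x ∈ R, U.card - 1 ≤ (U.filter (fun c => ¬ r x ≤ x ⊔ c)).card := by
    intro x hx
    obtain ⟨hxA, hxu, hxr⟩ := (hmR x).mp hx
    have h2 : (U.filter (fun c => r x ≤ x ⊔ c)).card ≤ 1 := by
      rw [Finset.card_le_one]
      intro c hc c' hc'
      rw [Finset.mem_filter] at hc hc'
      have hrxa := hA _ (hr x hxA hxu).1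
      have e1 := line_of (hA x hxA) hrxa hxr.symm (le_sup_left : x ≤ x ⊔ c) hc.2
        (hrk x hxA hxu c hc.1)
      have e2 := line_of (hA x hxA) hrxa hxr.symm (le_sup_left : x ≤ x ⊔ c') hc'.2
        (hrk x hxA hxu c' hc'.1)
      exact huniq x hxu (x ⊔ c) (hrk x hxA hxu c hc.1) le_sup_left c hc.1 c' hc'.1 le_sup_right
        (by rw [← e1, e2]; exact le_sup_right)
    have h3 := Finset.card_filter_add_card_filter_not (s := U) (fun c => r x ≤ x ⊔ c)
    omega
  obtain ⟨t, ht1, ht2, ht3, ht4⟩ := Rain64.rainbow2 (V := V) (c := fun v => v.1)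
    (κ := fun v => v.1.1 ⊔ v.2.1) (γ := fun v => v.2.2) β hβ0
    (by
      intro x
      have e1 : ∑ v with (v : V).1 = x, β v = ∑ c : L, ∑ g : L, β (x, c, g) := by
        rw [Finset.sum_filter, Fintype.sum_prod_type]
        rw [Finset.sum_eq_single x]
        · rw [Fintype.sum_prod_type]
          simp
        · intro y _ hyx
          apply Finset.sum_eq_zero
          intro p _
          rw [if_neg hyx]
        · intro h
          exact absurd (Finset.mem_univ x) h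
      rw [e1]
      calc (1 : ℝ) ≤ ((U.filter (fun c => ¬ r x.1 ≤ x.1 ⊔ c)).card : ℝ) * (1 / s) := by
            rw [mul_one_div, le_div_iff₀ hs0, one_mul]
            have h1 := hTcard x.1 x.2
            have h2 : U.card ≤ (U.filter (fun c => ¬ r x.1 ≤ x.1 ⊔ c)).card + 1 := by omega
            have h3 : (U.card : ℝ) ≤ (U.filter (fun c => ¬ r x.1 ≤ x.1 ⊔ c)).card + 1 := by
              exact_mod_cast h2
            rw [hs]
            linarith
        _ = ∑ c ∈ U.filter (fun c => ¬ r x.1 ≤ x.1 ⊔ c), (1 / s) := by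
            rw [Finset.sum_const, nsmul_eq_mul]
        _ ≤ ∑ c ∈ U.filter (fun c => ¬ r x.1 ≤ x.1 ⊔ c), ∑ g : L, β (x, c, g) := by
            apply Finset.sum_le_sum
            intro c hc
            rw [Finset.mem_filter] at hc
            exact hnode' x c hc.1 hc.2
        _ ≤ ∑ c : L, ∑ g : L, β (x, c, g) := by
            apply Finset.sum_le_sum_of_subset_of_nonneg (Finset.subset_univ _)
            intro c _ _
            exact Finset.sum_nonneg fun g _ => hβ0 _)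
    (by
      intro v hv
      have hvok := hok v hv.ne'
      obtain ⟨x0, c0, g0⟩ := v
      obtain ⟨hc0, hrx0, hg0⟩ := hvok
      change c0 ∈ U at hc0
      obtain ⟨hx0A, hx0u, hx0r⟩ := (hmR x0.1).mp x0.2
      have hk0 := hrk x0.1 hx0A hx0u c0 hc0
      set k := x0.1 ⊔ c0 with hkdef
      have hc0' := (hmU c0).mp hc0
      -- rows
      have hrow : (∑ u' with (u' : V).1.1 ⊔ u'.2.1 = k, β u') ≤
          (((A.filter (· ≤ k)).card : ℝ) - 1) / s := by
        have e1 : ∑ u' with (u' : V).1.1 ⊔ u'.2.1 = k, β u' =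
            ∑ y : {x // x ∈ R}, ∑ c : L, ∑ g : L, if y.1 ⊔ c = k then β (y, c, g) else 0 := by
          rw [Finset.sum_filter, Fintype.sum_prod_type]
          apply Finset.sum_congr rfl
          intro y _
          rw [Fintype.sum_prod_type]
        rw [e1]
        have e2 : ∀ y : {x // x ∈ R}, (∑ c : L, ∑ g : L, if y.1 ⊔ c = k then β (y, c, g) else 0)
            ≤ if y.1 ≤ k then 1 / s else 0 := by
          intro y
          obtain ⟨hyA, hyu, -⟩ := (hmR y.1).mp y.2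
          by_cases hyk : y.1 ≤ k
          · rw [if_pos hyk]
            apply sum_le_of_unique
            · positivity
            · intro c
              split_ifs with h
              · exact hnode y c
              · rw [Finset.sum_const_zero]
                positivity
            · intro c c' hc hc'
              have hin : ∀ d, (∑ g : L, if y.1 ⊔ d = k then β (y, d, g) else 0) ≠ 0 →
                  d ∈ U ∧ d ≤ k := by
                intro d hd
                obtain ⟨g, -, hg⟩ := Finset.exists_ne_zero_of_sum_ne_zero hd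
                by_cases hdk : y.1 ⊔ d = k
                · rw [if_pos hdk] at hg
                  exact ⟨(hok _ hg).1, hdk ▸ le_sup_right⟩
                · rw [if_neg hdk] at hg
                  exact absurd rfl hg
              obtain ⟨h1, h2⟩ := hin c hc
              obtain ⟨h1', h2'⟩ := hin c' hc'
              exact huniq y.1 hyu k hk0 hyk c h1 c' h1' h2 h2'
          · rw [if_neg hyk]
            apply le_of_eq
            apply Finset.sum_eq_zero
            intro c _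
            apply Finset.sum_eq_zero
            intro g _
            have hnk : ¬ y.1 ⊔ c = k := fun h => hyk (by rw [← h]; exact le_sup_left)
            rw [if_neg hnk]
        refine le_trans (Finset.sum_le_sum fun y _ => e2 y) ?_
        rw [← Finset.sum_filter, Finset.sum_const, nsmul_eq_mul, mul_one_div]
        apply div_le_div_of_nonneg_right _ hs0.le
        have h2 : (Finset.univ.filter (fun y : {x // x ∈ R} => y.1 ≤ k)).card ≤
            ((A.filter (· ≤ k)).erase c0).card := by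
          rw [← Finset.card_map (Function.Embedding.subtype _)]
          apply Finset.card_le_card
          intro z hz
          rw [Finset.mem_map] at hz
          obtain ⟨y, hy, rfl⟩ := hz
          rw [Finset.mem_filter] at hy
          obtain ⟨hyA, hyu, -⟩ := (hmR y.1).mp y.2
          rw [Finset.mem_erase, Finset.mem_filter]
          exact ⟨hne y.1 hyu c0 hc0, hyA, hy.2⟩
        have h3 : c0 ∈ A.filter (· ≤ k) := Finset.mem_filter.mpr ⟨hc0'.1, le_sup_right⟩
        have h5 : 0 < (A.filter (· ≤ k)).card := Finset.card_pos.mpr ⟨c0, h3⟩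
        rw [Finset.card_erase_of_mem h3] at h2
        have h4 : (Finset.univ.filter (fun y : {x // x ∈ R} => y.1 ≤ k)).card + 1 ≤
            (A.filter (· ≤ k)).card := by omega
        have h6 : ((Finset.univ.filter (fun y : {x // x ∈ R} => y.1 ≤ k)).card : ℝ) + 1 ≤
            (A.filter (· ≤ k)).card := by exact_mod_cast h4
        linarith
      -- lines
      have hline : (∑ u' with (u' : V).2.2 = g0, β u') ≤ (U.card : ℝ) / (s * m) := by
        have e1 : ∑ u' with (u' : V).2.2 = g0, β u' =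
            ∑ c : L, ∑ y : {x // x ∈ R}, β (y, c, g0) := by
          rw [Finset.sum_filter, Fintype.sum_prod_type, Finset.sum_comm]
          rw [Fintype.sum_prod_type]
          apply Finset.sum_congr rfl
          intro c _
          rw [Finset.sum_comm]
          apply Finset.sum_congr rfl
          intro y _
          rw [Finset.sum_ite_eq' Finset.univ g0]
          simp
        rw [e1]
        have e2 : ∀ c : L, (∑ y : {x // x ∈ R}, β (y, c, g0)) ≤
            if c ∈ U then 1 / (s * m) else 0 := by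
          intro c
          by_cases hc : c ∈ U
          · rw [if_pos hc]
            apply sum_le_of_unique
            · positivity
            · intro y
              exact hβle _
            · intro y y' hy hy'
              have h1 := hok _ hy
              have h1' := hok _ hy'
              obtain ⟨f1, f2, f3, f4⟩ := hfact _ h1
              obtain ⟨f1', f2', f3', f4'⟩ := hfact _ h1'
              obtain ⟨hyA, hyu, -⟩ := (hmR y.1).mp y.2
              obtain ⟨hyA', hyu', -⟩ := (hmR y'.1).mp y'.2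
              have h2 := hHHinj c hc y.1 hyA hyu h1.2.1 y'.1 hyA' hyu' h1'.2.1 (f4.symm.trans f4')
              by_contra hyy
              have hyy' : y.1 ≠ y'.1 := fun h => hyy (Subtype.ext h)
              have h3 : y.1 ⊔ y'.1 = g0 := line_of (hA _ hyA) (hA _ hyA') hyy' f2 f2' f1
              have h5 : y.1 ⊔ y'.1 = y.1 ⊔ c := line_of (hA _ hyA) (hA _ hyA') hyy' le_sup_left
                (by rw [h2]; exact le_sup_left) (hrk y.1 hyA hyu c hc)
              exact f3 (by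
                change c ≤ g0
                rw [← h3, h5]
                exact le_sup_right)
          · rw [if_neg hc]
            apply le_of_eq
            apply Finset.sum_eq_zero
            intro y _
            exact if_neg (fun h => hc h.1)
        refine le_trans (Finset.sum_le_sum fun c _ => e2 c) ?_
        rw [← Finset.sum_filter, Finset.sum_const, nsmul_eq_mul, mul_one_div,
          Finset.filter_mem_eq_inter, Finset.univ_inter]
      have hfin : (((A.filter (· ≤ k)).card : ℝ) - 1) / s + (U.card : ℝ) / (s * m) ≤ 1 := by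
        have h1 := hlong k hk0 (fun h => hx0u (by rw [← h]; exact le_sup_left)) ⟨c0, hc0'.1, hc0'.2, le_sup_right⟩
        have h2 : (m : ℝ) * (A.filter (· ≤ k)).card + U.card ≤ m * U.card := by exact_mod_cast h1
        have h3 : (((A.filter (· ≤ k)).card : ℝ) - 1) / s + (U.card : ℝ) / (s * m) =
            (m * (((A.filter (· ≤ k)).card : ℝ) - 1) + U.card) / (s * m) := by
          field_simp
        rw [h3, div_le_one (by positivity)]
        rw [hs]
        nlinarith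
      refine le_trans (add_le_add ?_ ?_) hfin
      · refine le_trans (le_of_eq ?_) hrow
        refine Finset.sum_congr ?_ (fun _ _ => rfl)
        ext u'
        simp only [Finset.mem_filter]
      · refine le_trans (le_of_eq ?_) hline
        refine Finset.sum_congr ?_ (fun _ _ => rfl)
        ext u'
        simp only [Finset.mem_filter])
  -- reading off
  have htok : ∀ x : {x // x ∈ R}, ok (t x) := fun x => hok _ (ht2 x).ne'
  have htx : ∀ x : {x // x ∈ R}, (t x).1 = x := ht1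
  have hcU : ∀ x : {x // x ∈ R}, (t x).2.1 ∈ U ∧ ¬ r x.1 ≤ x.1 ⊔ (t x).2.1 ∧
      ∃ z ∈ A, z ≤ HH (t x).2.1 (x.1 ⊔ (t x).2.1) ∧ ¬ z ≤ x.1 ⊔ (t x).2.1 ∧
        x.1 ⊔ z = (t x).2.2 := by
    intro x
    obtain ⟨h1, h2, h3⟩ := htok x
    rw [htx x] at h2 h3
    exact ⟨h1, h2, mem_pen.mp h3⟩
  choose hcU hcr z hzA hzH hzk hzg using hcU
  set cc : L → L := fun x => if h : x ∈ R then (t ⟨x, h⟩).2.1 else x with hccdef
  set gg : L → L := fun x => if h : x ∈ R then z ⟨x, h⟩ else x with hggdef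
  have hcc : ∀ x (h : x ∈ R), cc x = (t ⟨x, h⟩).2.1 := fun x h => by simp only [hccdef, h, dite_true]
  have hgg : ∀ x (h : x ∈ R), gg x = z ⟨x, h⟩ := fun x h => by simp only [hggdef, h, dite_true]
  have hR' : ∀ x ∈ A, ¬ x ≤ u → r x ≠ x → x ∈ R := fun x h1 h2 h3 => (hmR x).mpr ⟨h1, h2, h3⟩
  have hccU : ∀ x ∈ R, cc x ∈ U ∧ ¬ r x ≤ x ⊔ cc x := by
    intro x hx
    rw [hcc x hx]
    exact ⟨hcU ⟨x, hx⟩, hcr ⟨x, hx⟩⟩
  have hccinj : ∀ x ∈ R, ∀ y ∈ R, x ⊔ cc x = y ⊔ cc y → x = y := by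
    intro x hx y hy e
    rw [hcc x hx, hcc y hy] at e
    have h1 : (⟨x, hx⟩ : {x // x ∈ R}) = ⟨y, hy⟩ := by
      apply ht3
      change (t ⟨x, hx⟩).1.1 ⊔ (t ⟨x, hx⟩).2.1 = (t ⟨y, hy⟩).1.1 ⊔ (t ⟨y, hy⟩).2.1
      rw [htx, htx]
      exact e
    exact congrArg Subtype.val h1
  refine crit4_of_levels (u := u) (b1 := b1) (b2 := b2) (r1 := r1) (r2 := r2) (r := r) (cc := cc)
    (gg := gg) (H := fun x => HH (cc x) (x ⊔ cc x)) hA hu hb1 hb2 hbu hr1 hr2 h4 hrr hrr1 hrr2 hrv
    ?_ ?_ ?_ ?_ ?_ ?_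
  · intro x h1 h2 h3
    have h5 := hccU x (hR' x h1 h2 h3)
    exact ⟨((hmU _).mp h5.1).1, ((hmU _).mp h5.1).2, h5.2⟩
  · intro x h1 h2 h3 y h1' h2' h3' e
    exact hccinj x (hR' x h1 h2 h3) y (hR' y h1' h2' h3') e
  · intro x h1 h2 h3
    have h5 := hccU x (hR' x h1 h2 h3)
    obtain ⟨k1, k2, k3, k4, -⟩ := hHH (cc x) h5.1 x h1 h2 h5.2
    exact ⟨k1, k2, k3, k4⟩
  · intro x h1 h2 h3 y h1' h2' h3' e1 e2
    have h5 := hccU x (hR' x h1 h2 h3)
    have h5' := hccU y (hR' y h1' h2' h3')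
    apply hccinj x (hR' x h1 h2 h3) y (hR' y h1' h2' h3')
    change HH (cc x) (x ⊔ cc x) = HH (cc y) (y ⊔ cc y) at e2
    rw [← e1] at e2 h5' ⊢
    exact hHHinj (cc x) h5.1 x h1 h2 h5.2 y h1' h2' h5'.2 e2
  · intro x h1 h2 h3
    have hx := hR' x h1 h2 h3
    change gg x ∈ A ∧ gg x ≤ HH (cc x) (x ⊔ cc x) ∧ ¬ gg x ≤ x ⊔ cc x
    rw [hgg x hx, hcc x hx]
    exact ⟨hzA ⟨x, hx⟩, hzH ⟨x, hx⟩, hzk ⟨x, hx⟩⟩
  · intro x h1 h2 h3 y h1' h2' h3' e
    have hx := hR' x h1 h2 h3
    have hy := hR' y h1' h2' h3'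
    rw [hgg x hx, hgg y hy] at e
    have h5 : (⟨x, hx⟩ : {x // x ∈ R}) = ⟨y, hy⟩ := by
      apply ht4
      change (t ⟨x, hx⟩).2.2 = (t ⟨y, hy⟩).2.2
      rw [← hzg ⟨x, hx⟩, ← hzg ⟨y, hy⟩]
      exact e
    exact congrArg Subtype.val h5

end Pool.Agent.Helper40.Pack
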